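import Mathlib

set_option autoImplicit false

namespace Pool.Agent.Lib.MP_7b563b_co.Lit

universe u

variable {V : Type u}

/-- `M` is a matching of `G` that is induced in `G`. -/
def IsIndMatching {G : SimpleGraph V} (M : G.Subgraph) : Prop := M.IsMatching ∧ M.IsInduced

/-- `sim(A, V \ A)`: the largest number of edges of an induced matching of `G` in which every
edge has one end in `A` and the other outside `A`. -/
noncomputable def cutSim (G : SimpleGraph V) (A : Set V) : ℕ∞ :=
  ⨆ (M : G.Subgraph) (_ : IsIndMatching M ∧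
    ∀ a b, M.Adj a b → (a ∈ A ∧ b ∉ A) ∨ (a ∉ A ∧ b ∈ A)), M.edgeSet.encard

/-- A branch decomposition of the vertex set `V`: a finite tree whose vertices have degree 1
(leaves) or 3, with a bijection from `V` to the leaves. -/
structure BranchDecomp (V : Type u) : Type u where
  n : ℕ
  T : SimpleGraph (Fin n)
  isTree : T.IsTree
  deg : ∀ w, (T.neighborSet w).ncard = 1 ∨ (T.neighborSet w).ncard = 3
  leaf : V → Fin n
  bij : Set.BijOn leaf Set.univ {w | (T.neighborSet w).ncard = 1}

/-- The vertices whose leaf lies on the side of `a` when the tree edge `ab` is deleted. -/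
def BranchDecomp.side (D : BranchDecomp V) (a b : Fin D.n) : Set V :=
  {v | (D.T.deleteEdges {s(a, b)}).Reachable a (D.leaf v)}

/-- The width of a branch decomposition: the maximum of `sim` over the edges of the tree. -/
noncomputable def BranchDecomp.width (D : BranchDecomp V) (G : SimpleGraph V) : ℕ∞ :=
  ⨆ (a : Fin D.n) (b : Fin D.n) (_ : D.T.Adj a b), cutSim G (D.side a b)

/-- Sim-width: the minimum width of a branch decomposition, and `0` if `|V| ≤ 1`. -/
noncomputable def simWidth (G : SimpleGraph V) : ℕ∞ :=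
  if Nat.card V ≤ 1 then 0 else ⨅ D : BranchDecomp V, D.width G

/-- A tree decomposition of `G`. -/
structure TreeDecomp (G : SimpleGraph V) : Type u where
  n : ℕ
  T : SimpleGraph (Fin n)
  isTree : T.IsTree
  bag : Fin n → Set V
  cover_vert : ∀ v, ∃ w, v ∈ bag w
  cover_edge : ∀ a b, G.Adj a b → ∃ w, a ∈ bag w ∧ b ∈ bag w
  conn : ∀ v, (T.induce {w | v ∈ bag w}).Connected

/-- `μ(X)`: the largest number of edges of an induced matching of `G` in which every edge has
at least one end in `X`. -/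
noncomputable def mu (G : SimpleGraph V) (X : Set V) : ℕ∞ :=
  ⨆ (M : G.Subgraph) (_ : IsIndMatching M ∧ ∀ a b, M.Adj a b → a ∈ X ∨ b ∈ X),
    M.edgeSet.encard

/-- Induced matching treewidth. -/
noncomputable def treeMu (G : SimpleGraph V) : ℕ∞ :=
  ⨅ D : TreeDecomp G, ⨆ w : Fin D.n, mu G (D.bag w)

/-- The vertex set `S` induces a matching with `t` edges that covers `S`. -/
def InducesMatching (G : SimpleGraph V) (S : Set V) (t : ℕ) : Prop :=
  ((⊤ : G.Subgraph).induce S).IsMatching ∧ ((⊤ : G.Subgraph).induce S).edgeSet.encard = t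

/-- `H` is a `t`-obstruction. -/
def IsObstruction (H : SimpleGraph V) (t : ℕ) : Prop :=
  ∃ A B C D : Set V, A ∪ B ∪ C ∪ D = Set.univ ∧
    Disjoint A B ∧ Disjoint A C ∧ Disjoint A D ∧ Disjoint B C ∧ Disjoint B D ∧ Disjoint C D ∧
    A.encard = t ∧ B.encard = t ∧ C.encard = t ∧ D.encard = t ∧
    H.IsIndepSet A ∧ H.IsIndepSet B ∧ H.IsIndepSet C ∧ H.IsIndepSet D ∧
    InducesMatching H (A ∪ B) t ∧ InducesMatching H (C ∪ D) t ∧
    ∀ b ∈ B, ∀ c ∈ C, H.Adj b c

/-- The bound `f(s, t) = 14 a b + 3`. -/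
def bound (s t : ℕ) : ℕ :=
  14 * ((32 * (s + 1) * (t + 1) + 1) *
    (16 * (s + 1) * (1 + (2 * t + 2) * 2 ^ (32 * (s + 1) * (t + 1) + 1)) + 1)) + 3

end Pool.Agent.Lib.MP_7b563b_co.Lit
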