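import Pool.Agent.Lib.MP_7b563b_co.Tree
import Pool.Agent.Lib.MP_7b563b_co.LitDefs

set_option autoImplicit false

namespace Pool.Agent.Lib.MP_7b563b_co.Lit

universe u

/-- function form of an induced matching -/
def FM {V : Type u} (G : SimpleGraph V) {m : ℕ} (x y : Fin m → V) : Prop :=
  (∀ i, G.Adj (x i) (y i)) ∧
    ∀ i j, i ≠ j → ¬ G.Adj (x i) (x j) ∧ ¬ G.Adj (x i) (y j) ∧ ¬ G.Adj (y i) (y j)

/-- function form of the obstruction -/
def FObs {V : Type u} (G : SimpleGraph V) (t : ℕ) : Prop :=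
  ∃ f : Fin 4 → Fin t → V, Function.Injective (Function.uncurry f) ∧
        (∀ p i j, ¬ G.Adj (f p i) (f p j)) ∧
        (∀ i j, G.Adj (f 0 i) (f 1 j) ↔ i = j) ∧
        (∀ i j, G.Adj (f 2 i) (f 3 j) ↔ i = j) ∧
        (∀ i j, G.Adj (f 1 i) (f 2 j))

lemma bound_eq (s t : ℕ) : bound s t = 3 * (2 * (2 * pk s t) + 1) + 2 * pk s t := by
  have h : 32 * (s + 1) * (t + 1) + 1 = pa s t := by unfold pa; ring
  unfold bound pk pb
  rw [h]
  ring

lemma core0 {V : Type} [Fintype V] (G : SimpleGraph V) (s t n : ℕ) (T : SimpleGraph (Fin n))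
    (L : V → Fin n) (hT : T.IsTree) (hdeg : ∀ w, (T.neighborSet w).ncard ≤ 3)
    (hL : Function.Injective L)
    (hcut : ∀ u w, T.Adj u w → ∀ x y : Fin (s + 1) → V, FM G x y →
      ¬ ∀ i, (T.deleteEdges {s(u, w)}).Reachable u (L (x i)) ∧
        ¬ (T.deleteEdges {s(u, w)}).Reachable u (L (y i)))
    (hobs : ¬ FObs G t) :
    ∃ (n : ℕ) (T : SimpleGraph (Fin n)) (bag : Fin n → Set V),
      T.IsTree ∧ (∀ v, ∃ w, v ∈ bag w) ∧
      (∀ v v', G.Adj v v' → ∃ w, v ∈ bag w ∧ v' ∈ bag w) ∧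
      (∀ v, (T.induce {w | v ∈ bag w}).Connected) ∧
      ∀ w, ∀ x y : Fin (bound s t + 1) → V, FM G x y → ¬ ∀ i, x i ∈ bag w ∨ y i ∈ bag w := by
  classical
  have htd : TD G Set.univ ∅ (3 * (2 * (2 * pk s t) + 1) + 2 * pk s t) := by
    refine td_exists (2 * pk s t) ?_ _ Set.univ ∅ (Set.empty_subset _) (muLe_empty _) le_rfl
    intro Z hZ
    obtain ⟨u, w, huw, h1, h2⟩ := balanced_edge hT hdeg L hL Z _ (by omega) hZ
    obtain ⟨X, hX1, hX2⟩ := cut_cover (s := s) (t := t) hobs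
      {v | L v ∈ Pool.Agent.Lib.MP_7b563b_co.side T u w} (by
      intro M hM hMA
      by_contra hlt
      obtain ⟨x, y, hxy, hind⟩ := im_to_fun hM (m := s + 1) (by omega)
      exact hcut u w huw x y ⟨fun i => hM.1 _ (hxy i), hind⟩
        fun i => ⟨(hMA _ (hxy i)).1, (hMA _ (hxy i)).2⟩)
    exact ⟨{v | L v ∈ Pool.Agent.Lib.MP_7b563b_co.side T u w}, X, h1, h2, hX1, hX2⟩
  obtain ⟨n', T', bag, h1, h2, h3, h4, h5⟩ := htd.toFin
  refine ⟨n', T', bag, h1, h2, h3, h4, fun w x y hxy hb => ?_⟩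
  obtain ⟨M, hM, hc, hm⟩ := fun_to_im x y hxy.1 hxy.2
  have := h5 w M hM (by
    intro e he
    obtain ⟨i, rfl⟩ := hm e he
    exact hb i)
  rw [bound_eq] at hc
  omega

lemma core {V : Type u} [Finite V] (G : SimpleGraph V) (s t n : ℕ) (T : SimpleGraph (Fin n))
    (L : V → Fin n) (hT : T.IsTree) (hdeg : ∀ w, (T.neighborSet w).ncard ≤ 3)
    (hL : Function.Injective L)
    (hcut : ∀ u w, T.Adj u w → ∀ x y : Fin (s + 1) → V, FM G x y →
      ¬ ∀ i, (T.deleteEdges {s(u, w)}).Reachable u (L (x i)) ∧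
        ¬ (T.deleteEdges {s(u, w)}).Reachable u (L (y i)))
    (hobs : ¬ FObs G t) :
    ∃ D : TreeDecomp G, ∀ w, ∀ x y : Fin (bound s t + 1) → V, FM G x y →
      ¬ ∀ i, x i ∈ D.bag w ∨ y i ∈ D.bag w := by
  obtain ⟨k, ⟨e⟩⟩ := Finite.exists_equiv_fin V
  obtain ⟨n', T', bag, h1, h2, h3, h4, h5⟩ := core0 (G.comap e.symm) s t n T (L ∘ e.symm) hT hdeg
    (hL.comp e.symm.injective)
    (fun u w huw x y hxy => hcut u w huw (e.symm ∘ x) (e.symm ∘ y) hxy)
    (by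
      rintro ⟨f, hf, h⟩
      exact hobs ⟨fun p i => e.symm (f p i), e.symm.injective.comp hf, h⟩)
  refine ⟨⟨n', T', h1, fun w => {v | e v ∈ bag w}, fun v => h2 (e v), fun a b hab => ?_,
    fun v => h4 (e v)⟩, fun w x y hxy hb => ?_⟩
  · exact h3 (e a) (e b) (by simpa using hab)
  · refine h5 w (e ∘ x) (e ∘ y) ⟨fun i => by simpa using hxy.1 i, fun i j hij => ?_⟩ hb
    simpa using hxy.2 i j hij

variable {V : Type u} {G : SimpleGraph V}

/-- the subgraph of a function-form matching -/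
def FM.sub {m : ℕ} {x y : Fin m → V} (h : FM G x y) : G.Subgraph where
  verts := Set.range x ∪ Set.range y
  Adj a b := ∃ i, (a = x i ∧ b = y i) ∨ (a = y i ∧ b = x i)
  adj_sub := by
    rintro a b ⟨i, ⟨rfl, rfl⟩ | ⟨rfl, rfl⟩⟩
    · exact h.1 i
    · exact (h.1 i).symm
  edge_vert := by
    rintro a b ⟨i, ⟨rfl, rfl⟩ | ⟨rfl, rfl⟩⟩
    · exact Or.inl ⟨i, rfl⟩
    · exact Or.inr ⟨i, rfl⟩
  symm := ⟨by
    rintro a b ⟨i, h | h⟩
    · exact ⟨i, Or.inr ⟨h.2, h.1⟩⟩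
    · exact ⟨i, Or.inl ⟨h.2, h.1⟩⟩⟩

lemma FM.adj_xx {m : ℕ} {x y : Fin m → V} (h : FM G x y) (i j : Fin m) : ¬ G.Adj (x i) (x j) := by
  by_cases hij : i = j
  · subst hij; exact G.irrefl
  · exact (h.2 i j hij).1

lemma FM.adj_yy {m : ℕ} {x y : Fin m → V} (h : FM G x y) (i j : Fin m) : ¬ G.Adj (y i) (y j) := by
  by_cases hij : i = j
  · subst hij; exact G.irrefl
  · exact (h.2 i j hij).2.2

lemma FM.adj_xy {m : ℕ} {x y : Fin m → V} (h : FM G x y) {i j : Fin m}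
    (ha : G.Adj (x i) (y j)) : i = j := by
  by_contra hij
  exact (h.2 i j hij).2.1 ha

lemma FM.sub_induced {m : ℕ} {x y : Fin m → V} (h : FM G x y) : h.sub.IsInduced := by
  rintro a (⟨i, rfl⟩ | ⟨i, rfl⟩) b (⟨j, rfl⟩ | ⟨j, rfl⟩) hab
  · exact absurd hab (h.adj_xx i j)
  · obtain rfl := h.adj_xy hab
    exact ⟨i, Or.inl ⟨rfl, rfl⟩⟩
  · obtain rfl := h.adj_xy hab.symm
    exact ⟨j, Or.inr ⟨rfl, rfl⟩⟩
  · exact absurd hab (h.adj_yy i j)

lemma FM.sub_matching {m : ℕ} {x y : Fin m → V} (h : FM G x y) : h.sub.IsMatching := by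
  rintro a (⟨i, rfl⟩ | ⟨i, rfl⟩)
  · refine ⟨y i, ⟨i, Or.inl ⟨rfl, rfl⟩⟩, ?_⟩
    rintro b ⟨j, ⟨h1, rfl⟩ | ⟨h1, rfl⟩⟩
    · rw [h.adj_xy (i := i) (j := j) (h1 ▸ h.1 j)]
    · exact absurd (h1 ▸ (h.1 j).symm) (h.adj_xx i j)
  · refine ⟨x i, ⟨i, Or.inr ⟨rfl, rfl⟩⟩, ?_⟩
    rintro b ⟨j, ⟨h1, rfl⟩ | ⟨h1, rfl⟩⟩
    · exact absurd (h1 ▸ h.1 j) (h.adj_yy i j)
    · rw [h.adj_xy (i := j) (j := i) (h1 ▸ h.1 j)]

lemma FM.sub_encard {m : ℕ} {x y : Fin m → V} (h : FM G x y) : h.sub.edgeSet.encard = m := by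
  have h1 : h.sub.edgeSet = (fun i => s(x i, y i)) '' Set.univ := by
    ext e
    induction e using Sym2.ind with
    | _ a b =>
      rw [SimpleGraph.Subgraph.mem_edgeSet]
      constructor
      · rintro ⟨i, ⟨rfl, rfl⟩ | ⟨rfl, rfl⟩⟩
        · exact ⟨i, trivial, rfl⟩
        · exact ⟨i, trivial, Sym2.eq_swap⟩
      · rintro ⟨i, _, hi⟩
        rcases Sym2.eq_iff.1 hi with h2 | h2
        · exact ⟨i, Or.inl ⟨h2.1.symm, h2.2.symm⟩⟩
        · exact ⟨i, Or.inr ⟨h2.2.symm, h2.1.symm⟩⟩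
  rw [h1, Function.Injective.encard_image]
  · simp
  · intro i j hij
    rcases Sym2.eq_iff.1 hij with h2 | h2
    · exact h.adj_xy (h2.2 ▸ h.1 i)
    · exact absurd (h2.2 ▸ h.1 i) (h.adj_xx i j)

lemma exists_fm {M : G.Subgraph} (hM : IsIndMatching M) (m : ℕ) (hm : (m : ℕ∞) ≤ M.edgeSet.encard) :
    ∃ x y : Fin m → V, FM G x y ∧ ∀ i, M.Adj (x i) (y i) := by
  obtain ⟨S, hS, hc⟩ := Set.exists_subset_encard_eq hm
  have hfin : S.Finite := Set.finite_of_encard_eq_coe hc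
  have : Finite S := hfin
  have hcard : Nat.card S = m := by
    have := hfin.cast_ncard_eq
    rw [hc] at this
    rw [Nat.card_coe_set_eq]
    exact_mod_cast this
  let e : Fin m ≃ S := (Finite.equivFinOfCardEq hcard).symm
  have hex : ∀ i, ∃ a b, (e i : Sym2 V) = s(a, b) := fun i => by
    generalize (e i : Sym2 V) = z
    induction z using Sym2.ind with
    | _ a b => exact ⟨a, b, rfl⟩
  choose x y hxy using hex
  have hadj : ∀ i, M.Adj (x i) (y i) := fun i => by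
    have := hS (e i).2
    rwa [hxy, SimpleGraph.Subgraph.mem_edgeSet] at this
  have key : ∀ a b c d, M.Adj a b → M.Adj c d → G.Adj a c → s(a, b) = s(c, d) := by
    intro a b c d hab hcd hac
    have h1 : M.Adj a c := hM.2 (M.edge_vert hab) (M.edge_vert hcd) hac
    have h2 : b = c := (hM.1 (M.edge_vert hab)).unique hab h1
    have h3 : a = d := (hM.1 (M.edge_vert hcd)).unique h1.symm hcd
    rw [h2, h3, Sym2.eq_swap]
  have inj : ∀ i j, s(x i, y i) = s(x j, y j) → i = j := fun i j hh =>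
    e.injective (Subtype.ext (by rw [hxy, hxy, hh]))
  refine ⟨x, y, ⟨fun i => M.adj_sub (hadj i), fun i j hij => ⟨fun ha => hij (inj i j ?_),
    fun ha => hij (inj i j ?_), fun ha => hij (inj i j ?_)⟩⟩, hadj⟩
  · exact key _ _ _ _ (hadj i) (hadj j) ha
  · exact (key _ _ _ _ (hadj i) (hadj j).symm ha).trans Sym2.eq_swap
  · exact Sym2.eq_swap.trans ((key _ _ _ _ (hadj i).symm (hadj j).symm ha).trans Sym2.eq_swap)

lemma FM.inducesMatching {m : ℕ} {x y : Fin m → V} (h : FM G x y) :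
    InducesMatching G (Set.range x ∪ Set.range y) m := by
  have h1 : (⊤ : G.Subgraph).induce (Set.range x ∪ Set.range y) = h.sub := by
    refine SimpleGraph.Subgraph.ext rfl ?_
    ext a b
    constructor
    · rintro ⟨ha, hb, hab⟩
      exact h.sub_induced ha hb hab
    · intro hab
      exact ⟨h.sub.edge_vert hab, h.sub.edge_vert hab.symm, h.sub.adj_sub hab⟩
  unfold InducesMatching
  rw [h1]
  exact ⟨h.sub_matching, h.sub_encard⟩

lemma obstruction_of_fobs {t : ℕ} (h : FObs G t) : ∃ S : Set V, IsObstruction (G.induce S) t := by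
  obtain ⟨f, hf, h1, h2, h3, h4⟩ := h
  let S : Set V := Set.range (Function.uncurry f)
  let g : Fin 4 → Fin t → S := fun p i => ⟨f p i, ⟨(p, i), rfl⟩⟩
  have gadj : ∀ p i q j, (G.induce S).Adj (g p i) (g q j) ↔ G.Adj (f p i) (f q j) :=
    fun _ _ _ _ => Iff.rfl
  have ginj : ∀ p i q j, g p i = g q j → p = q ∧ i = j := fun p i q j hh => by
    have : (p, i) = (q, j) := hf (congrArg Subtype.val hh)
    exact ⟨congrArg Prod.fst this, congrArg Prod.snd this⟩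
  have dis : ∀ p q, p ≠ q → Disjoint (Set.range (g p)) (Set.range (g q)) := fun p q hpq => by
    rw [Set.disjoint_left]
    rintro a ⟨i, rfl⟩ ⟨j, hj⟩
    exact hpq (ginj _ _ _ _ hj).1.symm
  have crd : ∀ p, (Set.range (g p)).encard = t := fun p => by
    rw [← Set.image_univ, Function.Injective.encard_image]
    · simp
    · exact fun i j hij => (ginj _ _ _ _ hij).2
  have ind : ∀ p, (G.induce S).IsIndepSet (Set.range (g p)) := fun p => by
    rintro a ⟨i, rfl⟩ b ⟨j, rfl⟩ _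
    exact h1 p i j
  have mat : ∀ p q, (∀ i j, G.Adj (f p i) (f q j) ↔ i = j) →
      InducesMatching (G.induce S) (Set.range (g p) ∪ Set.range (g q)) t := fun p q hpq =>
    FM.inducesMatching ⟨fun i => (hpq i i).2 rfl, fun i j hij =>
      ⟨h1 p i j, fun ha => hij ((hpq i j).1 ha), h1 q i j⟩⟩
  refine ⟨S, Set.range (g 0), Set.range (g 1), Set.range (g 2), Set.range (g 3), ?_,
    dis _ _ (by decide), dis _ _ (by decide), dis _ _ (by decide), dis _ _ (by decide),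
    dis _ _ (by decide), dis _ _ (by decide), crd _, crd _, crd _, crd _,
    ind _, ind _, ind _, ind _, mat _ _ h2, mat _ _ h3, ?_⟩
  · refine Set.eq_univ_of_forall ?_
    rintro ⟨a, ⟨p, i⟩, rfl⟩
    fin_cases p
    · exact Or.inl (Or.inl (Or.inl ⟨i, rfl⟩))
    · exact Or.inl (Or.inl (Or.inr ⟨i, rfl⟩))
    · exact Or.inl (Or.inr ⟨i, rfl⟩)
    · exact Or.inr ⟨i, rfl⟩
  · rintro b ⟨i, rfl⟩ c ⟨j, rfl⟩
    exact h4 i j

theorem main [Finite V] (G : SimpleGraph V) (s t : ℕ) (hs : simWidth G ≤ s)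
    (hobs : ¬ ∃ S : Set V, IsObstruction (G.induce S) t) : treeMu G ≤ bound s t := by
  have hobs' : ¬ FObs G t := fun h => hobs (obstruction_of_fobs h)
  have hD : ∃ D : TreeDecomp G, ∀ w, ∀ x y : Fin (bound s t + 1) → V, FM G x y →
      ¬ ∀ i, x i ∈ D.bag w ∨ y i ∈ D.bag w := by
    by_cases hV : Nat.card V ≤ 1
    · have : Subsingleton V := Finite.card_le_one_iff_subsingleton.1 hV
      refine core G s t 1 ⊥ (fun _ => 0) SimpleGraph.IsTree.of_subsingleton (fun w => by simp)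
        (fun a b _ => Subsingleton.elim a b) (fun u w huw => huw.elim) hobs'
    · rw [simWidth, if_neg hV] at hs
      have hlt : (⨅ D : BranchDecomp V, D.width G) < ((s + 1 : ℕ) : ℕ∞) :=
        hs.trans_lt (by exact_mod_cast Nat.lt_succ_self s)
      obtain ⟨D, hD⟩ := iInf_lt_iff.1 hlt
      refine core G s t D.n D.T D.leaf D.isTree (fun w => by rcases D.deg w with h | h <;> omega)
        (fun a b hab => D.bij.injOn trivial trivial hab) (fun u w huw x y hxy hb => ?_) hobs'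
      refine absurd hD (not_lt.2 ?_)
      refine le_iSup_of_le u (le_iSup_of_le w (le_iSup_of_le huw ?_))
      refine le_iSup_of_le hxy.sub (le_iSup_of_le ⟨⟨hxy.sub_matching, hxy.sub_induced⟩, ?_⟩
        hxy.sub_encard.ge)
      rintro a b ⟨i, ⟨rfl, rfl⟩ | ⟨rfl, rfl⟩⟩
      · exact Or.inl (hb i)
      · exact Or.inr ⟨(hb i).2, (hb i).1⟩
  obtain ⟨D, hD⟩ := hD
  refine iInf_le_of_le D (iSup_le fun w => iSup_le fun M => iSup_le fun hM => ?_)
  by_contra hlt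
  have h1 : ((bound s t + 1 : ℕ) : ℕ∞) ≤ M.edgeSet.encard := by
    push_cast
    exact Order.add_one_le_of_lt (not_le.1 hlt)
  obtain ⟨x, y, hxy, hadj⟩ := exists_fm hM.1 _ h1
  exact hD w x y hxy fun i => hM.2 _ _ (hadj i)

end Pool.Agent.Lib.MP_7b563b_co.Lit
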