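import Mathlib

-- part Pool.Agent.Lib.MP_7b563b_co.LP
section

set_option autoImplicit false

namespace Pool.Agent.Lib.MP_7b563b_co

open Finset

/-- A theorem of the alternative. -/
lemma alternative {ι κ : Type} [Fintype ι] [Fintype κ] (A : κ → ι → ℝ) (c : κ → ℝ) :
    (∃ x : ι → ℝ, (∀ i, 0 ≤ x i) ∧ ∀ j, 0 < ∑ i, A j i * x i + c j) ∨
    ∃ y : κ → ℝ, (∀ j, 0 ≤ y j) ∧ 0 < ∑ j, y j ∧ (∀ i, ∑ j, y j * A j i ≤ 0) ∧
      ∑ j, y j * c j ≤ 0 := by
  classical
  by_cases h : ∃ x : ι → ℝ, (∀ i, 0 ≤ x i) ∧ ∀ j, 0 < ∑ i, A j i * x i + c j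
  · exact Or.inl h
  right
  let s : Set (κ → ℝ) := {z | ∀ j, 0 < z j}
  let t : Set (κ → ℝ) := {z | ∃ x : ι → ℝ, (∀ i, 0 ≤ x i) ∧ z = fun j => ∑ i, A j i * x i + c j}
  have hs1 : Convex ℝ s := by
    intro a ha b hb p q hp hq hpq j
    have h1 := ha j
    have h2 := hb j
    simp only [Pi.add_apply, Pi.smul_apply, smul_eq_mul]
    rcases hp.eq_or_lt with rfl | hp'
    · have : q = 1 := by linarith
      subst this; simpa using h2
    · have := mul_pos hp' h1
      have := mul_nonneg hq h2.le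
      linarith
  have hs2 : IsOpen s := by
    have : s = ⋂ j, {z : κ → ℝ | 0 < z j} := by ext z; simp [s]
    rw [this]
    exact isOpen_iInter_of_finite fun j => isOpen_lt continuous_const (continuous_apply j)
  have ht : Convex ℝ t := by
    rintro _ ⟨x, hx, rfl⟩ _ ⟨x', hx', rfl⟩ p q hp hq hpq
    refine ⟨p • x + q • x', fun i => ?_, ?_⟩
    · simp only [Pi.add_apply, Pi.smul_apply, smul_eq_mul]
      exact add_nonneg (mul_nonneg hp (hx i)) (mul_nonneg hq (hx' i))
    · funext j
      simp only [Pi.add_apply, Pi.smul_apply, smul_eq_mul, mul_add, Finset.sum_add_distrib,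
        Finset.mul_sum]
      have e1 : ∑ i, A j i * (p * x i) = ∑ i, p * (A j i * x i) :=
        Finset.sum_congr rfl fun i _ => by ring
      have e2 : ∑ i, A j i * (q * x' i) = ∑ i, q * (A j i * x' i) :=
        Finset.sum_congr rfl fun i _ => by ring
      rw [e1, e2]
      have : p * c j + q * c j = c j := by rw [← add_mul, hpq, one_mul]
      linarith
  have hd : Disjoint s t := by
    rw [Set.disjoint_left]
    rintro _ hz ⟨x, hx, rfl⟩
    exact h ⟨x, hx, hz⟩
  obtain ⟨f, u, hf1, hf2⟩ := geometric_hahn_banach_open hs1 hs2 ht hd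
  let y : κ → ℝ := fun j => - f (Pi.single j 1)
  have hf : ∀ z : κ → ℝ, f z = - ∑ j, y j * z j := by
    intro z
    have : z = ∑ j, z j • (Pi.single j 1 : κ → ℝ) := by
      funext k; simp [Finset.sum_apply, Pi.single_apply]
    conv_lhs => rw [this, map_sum]
    simp only [map_smul, smul_eq_mul, y, ← Finset.sum_neg_distrib]
    exact Finset.sum_congr rfl fun j _ => by ring
  -- u is nonnegative
  have hu : 0 ≤ u := by
    by_contra hneg
    push Not at hneg
    set S := ∑ j, y j with hS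
    have hε : 0 < -u / (|S| + 1) := div_pos (by linarith) (by positivity)
    have := hf1 (fun _ => -u / (|S| + 1)) (fun _ => hε)
    rw [hf, ← Finset.sum_mul, ← hS] at this
    have h1 : S * (-u / (|S| + 1)) ≤ |S| * (-u / (|S| + 1)) :=
      mul_le_mul_of_nonneg_right (le_abs_self S) hε.le
    have h2 : (|S| + 1) * (-u / (|S| + 1)) = -u := by field_simp
    nlinarith
  have hy : ∀ j, 0 ≤ y j := by
    intro j
    by_contra hneg
    push Not at hneg
    set S := ∑ k, y k with hS
    let N : ℝ := (|u| + |S|) / (-y j)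
    have hN : 0 ≤ N := div_nonneg (by positivity) (by linarith)
    have := hf1 (fun k => 1 + if k = j then N else 0) (fun k => by
      dsimp only; split_ifs <;> linarith)
    rw [hf] at this
    simp only [mul_add, mul_one, Finset.sum_add_distrib, mul_ite, mul_zero, Finset.sum_ite_eq',
      Finset.mem_univ, if_true, ← hS] at this
    have h2 : y j * N = -(|u| + |S|) := by
      have : y j ≠ 0 := hneg.ne
      simp only [N]; field_simp
    have := le_abs_self u
    have := le_abs_self S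
    linarith
  have hc : ∑ j, y j * c j ≤ -u := by
    have := hf2 (fun j => ∑ i, A j i * (0 : ι → ℝ) i + c j) ⟨0, fun _ => le_rfl, rfl⟩
    rw [hf] at this
    simp only [Pi.zero_apply, mul_zero, Finset.sum_const_zero, zero_add] at this
    linarith
  refine ⟨y, hy, ?_, fun i => ?_, by linarith⟩
  · by_contra hneg
    push Not at hneg
    have h0 : ∀ j, y j = 0 := by
      have : ∑ j, y j = 0 := le_antisymm hneg (Finset.sum_nonneg fun j _ => hy j)
      rw [Finset.sum_eq_zero_iff_of_nonneg fun j _ => hy j] at this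
      exact fun j => this j (Finset.mem_univ _)
    have h1 := hf1 (fun _ => 1) (fun _ => one_pos)
    rw [hf] at h1
    simp only [h0, zero_mul, Finset.sum_const_zero, neg_zero] at h1 hc
    linarith
  · by_contra hneg
    push Not at hneg
    set P := ∑ j, y j * A j i with hP
    set C := ∑ j, y j * c j with hC
    let N : ℝ := (|u| + |C| + 1) / P
    have hN : 0 ≤ N := div_nonneg (by positivity) hneg.le
    have := hf2 (fun j => ∑ i', A j i' * (Pi.single i N : ι → ℝ) i' + c j)
      ⟨Pi.single i N, fun i' => by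
        rw [Pi.single_apply]; split_ifs <;> linarith, rfl⟩
    rw [hf] at this
    simp only [Pi.single_apply, mul_ite, mul_zero, Finset.sum_ite_eq', Finset.mem_univ, if_true,
      mul_add, Finset.sum_add_distrib, ← hC] at this
    have e1 : ∑ j, y j * (A j i * N) = P * N := by
      rw [hP, Finset.sum_mul]; exact Finset.sum_congr rfl fun j _ => by ring
    have h2 : P * N = |u| + |C| + 1 := by
      have : P ≠ 0 := hneg.ne'
      simp only [N]; field_simp
    have := neg_abs_le u
    have := neg_abs_le C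
    linarith

/-- The alternative for fractional covers. -/
lemma cover_alternative {V : Type} [Fintype V] [DecidableEq V] (E : Finset (V × V))
    (F : Finset (Finset V)) (c : ℝ) :
    (∃ x : V → ℝ, (∀ v, 0 ≤ x v) ∧ (∀ e ∈ E, 1 < x e.1 + x e.2) ∧ ∀ L ∈ F, ∑ v ∈ L, x v < c) ∨
    ∃ (p : V × V → ℝ) (l : Finset V → ℝ), (∀ e, 0 ≤ p e) ∧ (∀ L, 0 ≤ l L) ∧
      0 < ∑ e ∈ E, p e + ∑ L ∈ F, l L ∧
      (∀ v, ∑ e ∈ E, p e * ((if e.1 = v then 1 else 0) + (if e.2 = v then 1 else 0)) ≤
        ∑ L ∈ F, l L * (if v ∈ L then 1 else 0)) ∧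
      c * ∑ L ∈ F, l L ≤ ∑ e ∈ E, p e := by
  classical
  let A : E ⊕ F → V → ℝ := fun j v => match j with
    | Sum.inl e => (if e.1.1 = v then 1 else 0) + (if e.1.2 = v then 1 else 0)
    | Sum.inr L => - (if v ∈ L.1 then 1 else 0)
  let cc : E ⊕ F → ℝ := fun j => match j with
    | Sum.inl _ => -1
    | Sum.inr _ => c
  rcases alternative A cc with ⟨x, hx, h⟩ | ⟨y, hy, h1, h2, h3⟩
  · left
    refine ⟨x, hx, fun e he => ?_, fun L hL => ?_⟩
    · have := h (Sum.inl ⟨e, he⟩)
      simp only [A, cc, add_mul, Finset.sum_add_distrib, ite_mul, one_mul, zero_mul,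
        Finset.sum_ite_eq, Finset.mem_univ, if_true] at this
      linarith
    · have := h (Sum.inr ⟨L, hL⟩)
      simp only [A, cc, neg_mul, Finset.sum_neg_distrib, ite_mul, one_mul, zero_mul,
        Finset.sum_ite_mem, Finset.univ_inter] at this
      linarith
  · right
    let p : V × V → ℝ := fun e => if h : e ∈ E then y (Sum.inl ⟨e, h⟩) else 0
    let l : Finset V → ℝ := fun L => if h : L ∈ F then y (Sum.inr ⟨L, h⟩) else 0
    have hp : ∀ g : V × V → ℝ, ∑ e ∈ E, p e * g e = ∑ e : E, y (Sum.inl e) * g e.1 := by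
      intro g
      rw [← Finset.sum_coe_sort E]
      exact Finset.sum_congr rfl fun e _ => by simp [p]
    have hl : ∀ g : Finset V → ℝ, ∑ L ∈ F, l L * g L = ∑ L : F, y (Sum.inr L) * g L.1 := by
      intro g
      rw [← Finset.sum_coe_sort F]
      exact Finset.sum_congr rfl fun e _ => by simp [l]
    have hp1 := hp fun _ => 1
    have hl1 := hl fun _ => 1
    simp only [mul_one] at hp1 hl1
    refine ⟨p, l, fun e => ?_, fun L => ?_, ?_, fun v => ?_, ?_⟩
    · simp only [p]; split_ifs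
      · exact hy _
      · exact le_rfl
    · simp only [l]; split_ifs
      · exact hy _
      · exact le_rfl
    · rw [hp1, hl1]
      simpa [Fintype.sum_sum_type] using h1
    · have := h2 v
      rw [Fintype.sum_sum_type] at this
      simp only [A, mul_neg, Finset.sum_neg_distrib] at this
      rw [hp, hl]
      linarith
    · rw [Fintype.sum_sum_type] at h3
      simp only [cc, mul_neg, mul_one, Finset.sum_neg_distrib, ← Finset.sum_mul] at h3
      rw [hp1, hl1]
      linarith

/-- Greedy lemma: a weak weighted Turan bound. -/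
lemma greedy {α : Type} [DecidableEq α] (E : Finset α) (p : α → ℝ) (hp : ∀ e, 0 ≤ p e)
    (C : α → α → Prop) [DecidableRel C] (hrefl : ∀ e, C e e) (hsymm : ∀ e e', C e e' → C e' e)
    (s : ℕ) (h : ∀ M ⊆ E, (∀ e ∈ M, ∀ e' ∈ M, e ≠ e' → ¬ C e e') → M.card ≤ s) :
    (∑ e ∈ E, p e) ^ 2 ≤ 4 * (s + 1) * ∑ e ∈ E, ∑ e' ∈ E, if C e e' then p e * p e' else 0 := by
  classical
  set P := ∑ e ∈ E, p e with hP
  have hP0 : 0 ≤ P := Finset.sum_nonneg fun e _ => hp e
  let bad : α → ℝ := fun e => ∑ e' ∈ E, if C e e' then p e' else 0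
  have hbad0 : ∀ e, 0 ≤ bad e := fun e => Finset.sum_nonneg fun e' _ => by
    split_ifs
    · exact hp _
    · exact le_rfl
  have hQ : (∑ e ∈ E, ∑ e' ∈ E, if C e e' then p e * p e' else 0) = ∑ e ∈ E, p e * bad e := by
    refine Finset.sum_congr rfl fun e _ => ?_
    simp only [bad, Finset.mul_sum, mul_ite, mul_zero]
  rw [hQ]
  set Q := ∑ e ∈ E, p e * bad e with hQ'
  let θ : ℝ := P / (2 * (s + 1))
  have hθ0 : 0 ≤ θ := by positivity
  let Gd := E.filter fun e => bad e ≤ θ
  let Ind : Finset α → Prop := fun M => ∀ e ∈ M, ∀ e' ∈ M, e ≠ e' → ¬ C e e'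
  obtain ⟨M, hM, hmax⟩ := Finset.exists_max_image
    (@Finset.filter _ Ind (Classical.decPred _) Gd.powerset) Finset.card ⟨∅, by simp [Ind]⟩
  simp only [Finset.mem_filter, Finset.mem_powerset] at hM hmax
  have hMs : M.card ≤ s := h M (hM.1.trans (Finset.filter_subset _ _)) hM.2
  have hcov : ∀ e ∈ Gd, ∃ m ∈ M, C m e := by
    intro e he
    by_contra hno
    push Not at hno
    have heM : e ∉ M := fun hh => hno e hh (hrefl e)
    have := hmax (insert e M) (by
      refine ⟨Finset.insert_subset he hM.1, ?_⟩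
      intro a ha b hb hab
      rw [Finset.mem_insert] at ha hb
      rcases ha with rfl | ha <;> rcases hb with rfl | hb
      · exact absurd rfl hab
      · exact fun hc => hno b hb (hsymm _ _ hc)
      · exact hno a ha
      · exact hM.2 a ha b hb hab)
    rw [Finset.card_insert_of_notMem heM] at this
    omega
  have h1 : ∑ e ∈ Gd, p e ≤ s * θ := by
    calc ∑ e ∈ Gd, p e ≤ ∑ e ∈ Gd, ∑ m ∈ M, if C m e then p e else 0 := by
          refine Finset.sum_le_sum fun e he => ?_
          obtain ⟨m, hm, hc⟩ := hcov e he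
          have := Finset.single_le_sum (f := fun m => if C m e then p e else 0) (s := M)
            (fun i _ => by
              split_ifs
              · exact hp _
              · exact le_rfl) hm
          simpa [hc] using this
      _ ≤ ∑ e ∈ E, ∑ m ∈ M, if C m e then p e else 0 := by
          refine Finset.sum_le_sum_of_subset_of_nonneg (Finset.filter_subset _ _) fun e _ _ => ?_
          refine Finset.sum_nonneg fun m _ => ?_
          split_ifs
          · exact hp _
          · exact le_rfl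
      _ = ∑ m ∈ M, bad m := Finset.sum_comm
      _ ≤ ∑ m ∈ M, θ := Finset.sum_le_sum fun m hm => (Finset.mem_filter.1 (hM.1 hm)).2
      _ = M.card * θ := by simp
      _ ≤ s * θ := by
          apply mul_le_mul_of_nonneg_right _ hθ0
          exact_mod_cast hMs
  have h2 : (∑ e ∈ E.filter fun e => ¬ bad e ≤ θ, p e) * θ ≤ Q := by
    rw [Finset.sum_mul]
    calc ∑ e ∈ E.filter fun e => ¬ bad e ≤ θ, p e * θ
        ≤ ∑ e ∈ E.filter fun e => ¬ bad e ≤ θ, p e * bad e := by
          refine Finset.sum_le_sum fun e he => ?_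
          exact mul_le_mul_of_nonneg_left (not_le.1 (Finset.mem_filter.1 he).2).le (hp e)
      _ ≤ Q := Finset.sum_le_sum_of_subset_of_nonneg (Finset.filter_subset _ _)
          fun e _ _ => mul_nonneg (hp e) (hbad0 e)
  have h3 : ∑ e ∈ Gd, p e + ∑ e ∈ E.filter fun e => ¬ bad e ≤ θ, p e = P :=
    Finset.sum_filter_add_sum_filter_not E _ p
  have h4 : P = 2 * (s + 1) * θ := by simp only [θ]; field_simp
  set R := ∑ e ∈ E.filter fun e => ¬ bad e ≤ θ, p e
  have hs0 : (0 : ℝ) ≤ s := Nat.cast_nonneg s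
  have h5 : (s + 1) * θ ≤ R := by nlinarith
  have h6 : (s + 1) * θ * θ ≤ Q := (mul_le_mul_of_nonneg_right h5 hθ0).trans h2
  calc P ^ 2 = 4 * (s + 1) * ((s + 1) * θ * θ) := by rw [h4]; ring
    _ ≤ 4 * (s + 1) * Q := mul_le_mul_of_nonneg_left h6 (by positivity)

/-- one block -/
lemma block_bound {α : Type} [DecidableEq α] (R : α → α → Prop) [DecidableRel R] (r a : ℕ)
    (P L' : Finset α) (hP : P.card ≤ a)
    (h : ∀ B ⊆ P, ∀ C ⊆ L', B.card = r → C.card = r → ¬ ∀ u ∈ B, ∀ v ∈ C, R u v) :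
    ∑ u ∈ P, (L'.filter fun v => R u v).card ≤ r * L'.card + a * (r * 2 ^ a) := by
  classical
  have e1 : ∑ u ∈ P, (L'.filter fun v => R u v).card
      = ∑ v ∈ L', (P.filter fun u => R u v).card := by
    simp only [Finset.card_filter]
    exact Finset.sum_comm
  rw [e1]
  let Hi := L'.filter fun v => r ≤ (P.filter fun u => R u v).card
  have hHi : Hi.card ≤ r * 2 ^ a := by
    have := Finset.card_le_mul_card_image_of_maps_to (s := Hi) (t := P.powerset)
      (f := fun v => P.filter fun u => R u v)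
      (fun v _ => Finset.mem_powerset.2 (Finset.filter_subset _ _)) r (by
        intro N _
        by_contra hlt
        push Not at hlt
        obtain ⟨C, hC, hCr⟩ := Finset.exists_subset_card_eq hlt.le
        have hne : (Hi.filter fun v => (P.filter fun u => R u v) = N).Nonempty :=
          Finset.card_pos.1 (by omega)
        obtain ⟨v0, hv0⟩ := hne
        rw [Finset.mem_filter, Finset.mem_filter] at hv0
        have hN : r ≤ N.card := hv0.2 ▸ hv0.1.2
        obtain ⟨B, hB, hBr⟩ := Finset.exists_subset_card_eq hN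
        refine h B ?_ C ?_ hBr hCr ?_
        · exact hB.trans (hv0.2 ▸ Finset.filter_subset _ _)
        · exact hC.trans ((Finset.filter_subset _ _).trans (Finset.filter_subset _ _))
        · intro u hu v hv
          have h1 := (Finset.mem_filter.1 (hC hv)).2
          have h2 := hB hu
          rw [← h1] at h2
          exact (Finset.mem_filter.1 h2).2)
    rw [Finset.card_powerset] at this
    exact this.trans (Nat.mul_le_mul_left _ (Nat.pow_le_pow_right (by norm_num) hP))
  calc ∑ v ∈ L', (P.filter fun u => R u v).card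
      ≤ ∑ v ∈ L', (r + if r ≤ (P.filter fun u => R u v).card then a else 0) := by
        refine Finset.sum_le_sum fun v _ => ?_
        have := (Finset.card_filter_le P fun u => R u v).trans hP
        split_ifs <;> omega
    _ = r * L'.card + a * Hi.card := by
        rw [Finset.sum_add_distrib, ← Finset.sum_filter]
        simp [Hi, mul_comm]
    _ ≤ r * L'.card + a * (r * 2 ^ a) := by gcongr

/-- weak form of the Kovari-Sos-Turan bound -/
lemma kst {α : Type} [DecidableEq α] (R : α → α → Prop) [DecidableRel R] (r a : ℕ)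
    (L' : Finset α) (b : ℕ) : ∀ (L : Finset α), L.card ≤ a * b →
    (∀ B ⊆ L, ∀ C ⊆ L', B.card = r → C.card = r → ¬ ∀ u ∈ B, ∀ v ∈ C, R u v) →
    ∑ u ∈ L, (L'.filter fun v => R u v).card ≤ b * (r * L'.card + a * (r * 2 ^ a)) := by
  induction b with
  | zero =>
    intro L hL _
    have : L = ∅ := Finset.card_eq_zero.1 (by omega)
    simp [this]
  | succ b ih =>
    intro L hL h
    by_cases hLa : L.card ≤ a
    · refine (block_bound R r a L L' hLa h).trans ?_
      exact Nat.le_mul_of_pos_left _ (Nat.succ_pos b)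
    · push Not at hLa
      obtain ⟨P, hP, hPa⟩ := Finset.exists_subset_card_eq hLa.le
      have h1 := block_bound R r a P L' hPa.le fun B hB => h B (hB.trans hP)
      have h2 := ih (L \ P) (by
        rw [Finset.card_sdiff_of_subset hP, hPa]
        rw [Nat.mul_succ] at hL
        omega) fun B hB => h B (hB.trans Finset.sdiff_subset)
      rw [← Finset.sum_sdiff hP, Nat.succ_mul]
      omega

end Pool.Agent.Lib.MP_7b563b_co
end

-- part Pool.Agent.Lib.MP_7b563b_co.Cut
section

set_option autoImplicit false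

namespace Pool.Agent.Lib.MP_7b563b_co

open Finset

variable {V : Type} (G : SimpleGraph V)

/-- two edges with no adjacency between them -/
def Far (e e' : V × V) : Prop :=
  ¬ G.Adj e.1 e'.1 ∧ ¬ G.Adj e.1 e'.2 ∧ ¬ G.Adj e.2 e'.1 ∧ ¬ G.Adj e.2 e'.2

/-- induced matchings, as finite sets of ordered pairs -/
def IM (M : Finset (V × V)) : Prop :=
  (∀ e ∈ M, G.Adj e.1 e.2) ∧ ∀ e ∈ M, ∀ e' ∈ M, e ≠ e' → Far G e e'

/-- every induced matching touching X has at most d edges -/
def MuLe (X : Set V) (d : ℕ) : Prop :=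
  ∀ M : Finset (V × V), IM G M → (∀ e ∈ M, e.1 ∈ X ∨ e.2 ∈ X) → M.card ≤ d

/-- induced t-obstruction -/
def Obs (t : ℕ) : Prop :=
  ∃ f : Fin 4 → Fin t → V, Function.Injective (Function.uncurry f) ∧
        (∀ p i j, ¬ G.Adj (f p i) (f p j)) ∧
        (∀ i j, G.Adj (f 0 i) (f 1 j) ↔ i = j) ∧
        (∀ i j, G.Adj (f 2 i) (f 3 j) ↔ i = j) ∧
        (∀ i j, G.Adj (f 1 i) (f 2 j))

variable {G}

lemma Far.symm {e e' : V × V} (h : Far G e e') : Far G e' e :=
  ⟨fun a => h.1 a.symm, fun a => h.2.2.1 a.symm, fun a => h.2.1 a.symm, fun a => h.2.2.2 a.symm⟩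

lemma IM.subset {M M' : Finset (V × V)} (h : IM G M) (hs : M' ⊆ M) : IM G M' :=
  ⟨fun e he => h.1 e (hs he), fun e he e' he' => h.2 e (hs he) e' (hs he')⟩

lemma IM.fst_inj {M : Finset (V × V)} (h : IM G M) : Set.InjOn Prod.fst (M : Set (V × V)) := by
  intro e he e' he' hee
  by_contra hne
  exact (h.2 e he e' he' hne).2.1 (hee ▸ h.1 e' he')

lemma IM.snd_inj {M : Finset (V × V)} (h : IM G M) : Set.InjOn Prod.snd (M : Set (V × V)) := by
  intro e he e' he' hee
  by_contra hne
  exact (h.2 e he e' he' hne).2.1 (hee ▸ h.1 e he)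

lemma IM.swap [DecidableEq V] {M : Finset (V × V)} (h : IM G M) : IM G (M.image Prod.swap) := by
  constructor
  · intro e he
    obtain ⟨a, ha, rfl⟩ := Finset.mem_image.1 he
    exact (h.1 a ha).symm
  · intro e he e' he' hne
    obtain ⟨a, ha, rfl⟩ := Finset.mem_image.1 he
    obtain ⟨b, hb, rfl⟩ := Finset.mem_image.1 he'
    have := h.2 a ha b hb (fun hh => hne (by rw [hh]))
    exact ⟨this.2.2.2, this.2.2.1, this.2.1, this.1⟩

lemma MuLe.mono {X Y : Set V} {d d' : ℕ} (h : MuLe G Y d) (hXY : X ⊆ Y) (hd : d ≤ d') :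
    MuLe G X d' := fun M hM ht =>
  (h M hM fun e he => (ht e he).imp (fun a => hXY a) (fun a => hXY a)).trans hd

lemma MuLe.union {X Y : Set V} {a b : ℕ} (hX : MuLe G X a) (hY : MuLe G Y b) :
    MuLe G (X ∪ Y) (a + b) := by
  classical
  intro M hM ht
  have h1 := hX (M.filter fun e => e.1 ∈ X ∨ e.2 ∈ X) (hM.subset (Finset.filter_subset _ _))
    fun e he => (Finset.mem_filter.1 he).2
  have h2 := hY (M.filter fun e => ¬ (e.1 ∈ X ∨ e.2 ∈ X)) (hM.subset (Finset.filter_subset _ _))
    fun e he => by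
      have h3 := Finset.mem_filter.1 he
      have h4 := ht e h3.1
      simp only [Set.mem_union] at h4
      tauto
  have := Finset.card_filter_add_card_filter_not (s := M) (fun e => e.1 ∈ X ∨ e.2 ∈ X)
  omega

lemma muLe_singleton (u : V) : MuLe G {u} 1 := by
  intro M hM ht
  rw [Finset.card_le_one]
  intro e he e' he'
  by_contra hne
  have h1 := hM.2 e he e' he' hne
  have h2 := hM.1 e he
  have h3 := hM.1 e' he'
  rcases ht e he with a | a <;> rcases ht e' he' with b | b <;>
    simp only [Set.mem_singleton_iff] at a b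
  · exact h1.2.1 (by rw [a, ← b]; exact h3)
  · exact h1.1 (by rw [a, ← b]; exact h3.symm)
  · exact h1.2.2.2 (by rw [a, ← b]; exact h3)
  · exact h1.2.2.1 (by rw [a, ← b]; exact h3.symm)

lemma muLe_empty (d : ℕ) : MuLe G ∅ d := by
  intro M _ ht
  have : M = ∅ := Finset.eq_empty_of_forall_notMem fun e he => by simpa using ht e he
  simp [this]

lemma exists_fun_of_card {α : Type} (s : Finset α) (t : ℕ) (h : t ≤ s.card) :
    ∃ p : Fin t → α, Function.Injective p ∧ ∀ i, p i ∈ s := by
  obtain ⟨s', hs', hc⟩ := Finset.exists_subset_card_eq h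
  let e := Finset.equivFinOfCardEq hc
  refine ⟨fun i => (e.symm i).1, fun i j hij => ?_, fun i => hs' (e.symm i).2⟩
  exact e.symm.injective (Subtype.ext hij)

lemma obs_of_complete [DecidableEq V] {t : ℕ} {M M' : Finset (V × V)} (hM : IM G M) (hM' : IM G M')
    (B C : Finset V) (hB : B ⊆ M.image Prod.fst) (hC : C ⊆ M'.image Prod.fst)
    (hBc : B.card = 2 * t + 2) (hCc : C.card = 2 * t + 2) (h : ∀ u ∈ B, ∀ v ∈ C, G.Adj u v) :
    Obs G t := by
  let MB := M.filter fun e => e.1 ∈ B
  let MC := M'.filter fun e => e.1 ∈ C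
  have hMB : 2 * t + 2 ≤ MB.card := by
    rw [← hBc]
    refine le_trans (Finset.card_le_card ?_) (Finset.card_image_le (f := Prod.fst))
    intro u hu
    obtain ⟨e, he, rfl⟩ := Finset.mem_image.1 (hB hu)
    exact Finset.mem_image.2 ⟨e, Finset.mem_filter.2 ⟨he, hu⟩, rfl⟩
  have hMC : 2 * t + 2 ≤ MC.card := by
    rw [← hCc]
    refine le_trans (Finset.card_le_card ?_) (Finset.card_image_le (f := Prod.fst))
    intro u hu
    obtain ⟨e, he, rfl⟩ := Finset.mem_image.1 (hC hu)
    exact Finset.mem_image.2 ⟨e, Finset.mem_filter.2 ⟨he, hu⟩, rfl⟩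
  have iB : IM G MB := hM.subset (Finset.filter_subset _ _)
  have iC : IM G MC := hM'.subset (Finset.filter_subset _ _)
  have hBC : ∀ e ∈ MB, ∀ e' ∈ MC, G.Adj e.1 e'.1 := fun e he e' he' =>
    h _ (Finset.mem_filter.1 he).2 _ (Finset.mem_filter.1 he').2
  obtain ⟨p, hp, hpm⟩ := exists_fun_of_card MB t (by omega)
  let A' : Finset V := Finset.univ.image fun i => (p i).2
  have hA' : A'.card ≤ t := Finset.card_image_le.trans (by simp)
  have h1 : (MC.filter fun e => e.2 ∈ A').card ≤ A'.card := by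
    refine Finset.card_le_card_of_injOn Prod.snd ?_ ?_
    · intro e he
      exact (Finset.mem_filter.1 he).2
    · exact iC.snd_inj.mono (Finset.coe_subset.2 (Finset.filter_subset _ _))
  have h2 := Finset.card_filter_add_card_filter_not (s := MC) (fun e => e.2 ∈ A')
  obtain ⟨q, hq, hqm⟩ := exists_fun_of_card (MC.filter fun e => ¬ e.2 ∈ A') t (by omega)
  have hqC : ∀ i, q i ∈ MC := fun i => (Finset.mem_filter.1 (hqm i)).1
  have hqA : ∀ i j, (p i).2 ≠ (q j).2 := fun i j hh =>
    (Finset.mem_filter.1 (hqm j)).2 (Finset.mem_image.2 ⟨i, Finset.mem_univ _, hh⟩)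
  have pa : ∀ i, G.Adj (p i).1 (p i).2 := fun i => iB.1 _ (hpm i)
  have qa : ∀ i, G.Adj (q i).1 (q i).2 := fun i => iC.1 _ (hqC i)
  have pf : ∀ i j, i ≠ j → Far G (p i) (p j) := fun i j hij =>
    iB.2 _ (hpm i) _ (hpm j) fun hh => hij (hp hh)
  have qf : ∀ i j, i ≠ j → Far G (q i) (q j) := fun i j hij =>
    iC.2 _ (hqC i) _ (hqC j) fun hh => hij (hq hh)
  have c01 : ∀ i j, (p i).2 ≠ (p j).1 := by
    intro i j hh
    by_cases hij : i = j
    · subst hij; exact (pa i).ne hh.symm
    · exact (pf i j hij).1 (hh ▸ pa i)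
  have c23 : ∀ i j, (q i).1 ≠ (q j).2 := by
    intro i j hh
    by_cases hij : i = j
    · subst hij; exact (qa i).ne hh
    · exact (qf j i (Ne.symm hij)).1 (hh ▸ qa j)
  have c12 : ∀ i j, (p i).1 ≠ (q j).1 := fun i j => (hBC _ (hpm i) _ (hqC j)).ne
  have c02 : ∀ i j, (p i).2 ≠ (q j).1 := by
    intro i j hh
    obtain ⟨e, he, hne⟩ := Finset.exists_mem_ne (s := MB) (by omega) (p i)
    exact (iB.2 _ he _ (hpm i) hne).2.1 (hh ▸ hBC _ he _ (hqC j))
  have c13 : ∀ i j, (p i).1 ≠ (q j).2 := by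
    intro i j hh
    obtain ⟨e, he, hne⟩ := Finset.exists_mem_ne (s := MC) (by omega) (q j)
    exact (iC.2 _ he _ (hqC j) hne).2.1 (hh ▸ (hBC _ (hpm i) _ he).symm)
  have c00 : ∀ i j, (p i).2 = (p j).2 → i = j := fun i j hh =>
    hp (iB.snd_inj (hpm i) (hpm j) hh)
  have c11 : ∀ i j, (p i).1 = (p j).1 → i = j := fun i j hh =>
    hp (iB.fst_inj (hpm i) (hpm j) hh)
  have c22 : ∀ i j, (q i).1 = (q j).1 → i = j := fun i j hh =>
    hq (iC.fst_inj (hqC i) (hqC j) hh)
  have c33 : ∀ i j, (q i).2 = (q j).2 → i = j := fun i j hh =>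
    hq (iC.snd_inj (hqC i) (hqC j) hh)
  refine ⟨![fun i => (p i).2, fun i => (p i).1, fun i => (q i).1, fun i => (q i).2],
    ?_, ?_, ?_, ?_, ?_⟩
  · rintro ⟨a, i⟩ ⟨b, j⟩ hh
    fin_cases a <;> fin_cases b <;> simp [Function.uncurry] at hh ⊢
    · exact c00 _ _ hh
    · exact c01 _ _ hh
    · exact c02 _ _ hh
    · exact hqA _ _ hh
    · exact c01 _ _ hh.symm
    · exact c11 _ _ hh
    · exact c12 _ _ hh
    · exact c13 _ _ hh
    · exact c02 _ _ hh.symm
    · exact c12 _ _ hh.symm
    · exact c22 _ _ hh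
    · exact c23 _ _ hh
    · exact hqA _ _ hh.symm
    · exact c13 _ _ hh.symm
    · exact c23 _ _ hh.symm
    · exact c33 _ _ hh
  · intro a i j
    by_cases hij : i = j
    · subst hij; exact G.irrefl
    · fin_cases a
      · exact (pf i j hij).2.2.2
      · exact (pf i j hij).1
      · exact (qf i j hij).1
      · exact (qf i j hij).2.2.2
  · intro i j
    constructor
    · intro hh
      by_contra hij
      exact (pf i j hij).2.2.1 hh
    · rintro rfl
      exact (pa i).symm
  · intro i j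
    constructor
    · intro hh
      by_contra hij
      exact (qf i j hij).2.1 hh
    · rintro rfl
      exact qa i
  · intro i j
    exact hBC _ (hpm i) _ (hqC j)

/-- block size -/
def pa (s t : ℕ) : ℕ := 16 * (s + 1) * (2 * t + 2) + 1
/-- number of blocks -/
def pb (s t : ℕ) : ℕ := 16 * (s + 1) * (1 + (2 * t + 2) * 2 ^ pa s t) + 1
/-- size of good sets -/
def pk (s t : ℕ) : ℕ := pa s t * pb s t

lemma pk_pos (s t : ℕ) : 0 < pk s t := Nat.mul_pos (Nat.succ_pos _) (Nat.succ_pos _)

lemma numeric (s t : ℕ) :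
    16 * (s + 1) * (pk s t + pb s t * ((2 * t + 2) * pk s t + pa s t * ((2 * t + 2) * 2 ^ pa s t)))
      < pk s t ^ 2 := by
  have hk := pk_pos s t
  have e1 : pk s t + pb s t * ((2 * t + 2) * pk s t + pa s t * ((2 * t + 2) * 2 ^ pa s t))
      = pk s t * (1 + pb s t * (2 * t + 2) + (2 * t + 2) * 2 ^ pa s t) := by
    unfold pk; ring
  rw [e1, sq, ← mul_assoc, mul_comm (16 * (s + 1)), mul_assoc]
  apply Nat.mul_lt_mul_of_pos_left _ hk
  have e2 : pk s t = 16 * (s + 1) * (2 * t + 2) * pb s t + pb s t := by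
    unfold pk; rw [pa]; ring
  have e3 : pb s t = 16 * (s + 1) * (1 + (2 * t + 2) * 2 ^ pa s t) + 1 := rfl
  rw [e2]
  nlinarith

lemma bil {α β : Type} [Fintype V] (r : V → V → ℝ) (S : Finset α) (T : Finset β)
    (f : α → V → ℝ) (g : β → V → ℝ) :
    ∑ u, ∑ v, r u v * ((∑ a ∈ S, f a u) * (∑ b ∈ T, g b v)) =
      ∑ a ∈ S, ∑ b ∈ T, ∑ u, ∑ v, r u v * (f a u * g b v) := by
  calc ∑ u, ∑ v, r u v * ((∑ a ∈ S, f a u) * (∑ b ∈ T, g b v))
      = ∑ u, ∑ v, ∑ a ∈ S, ∑ b ∈ T, r u v * (f a u * g b v) := by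
        refine Finset.sum_congr rfl fun u _ => Finset.sum_congr rfl fun v _ => ?_
        rw [Finset.sum_mul_sum, Finset.mul_sum]
        refine Finset.sum_congr rfl fun a _ => ?_
        rw [Finset.mul_sum]
    _ = ∑ u, ∑ a ∈ S, ∑ v, ∑ b ∈ T, r u v * (f a u * g b v) :=
        Finset.sum_congr rfl fun u _ => Finset.sum_comm
    _ = ∑ a ∈ S, ∑ u, ∑ v, ∑ b ∈ T, r u v * (f a u * g b v) := Finset.sum_comm
    _ = ∑ a ∈ S, ∑ u, ∑ b ∈ T, ∑ v, r u v * (f a u * g b v) :=
        Finset.sum_congr rfl fun a _ => Finset.sum_congr rfl fun u _ => Finset.sum_comm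
    _ = ∑ a ∈ S, ∑ b ∈ T, ∑ u, ∑ v, r u v * (f a u * g b v) :=
        Finset.sum_congr rfl fun a _ => Finset.sum_comm

lemma quad_bound [Fintype V] [DecidableEq V] (R : V → V → Prop) [DecidableRel R]
    (E : Finset (V × V)) (p : V × V → ℝ) (hp : ∀ e, 0 ≤ p e) :
    (∑ e ∈ E, ∑ e' ∈ E,
      if (R e.1 e'.1 ∨ R e.1 e'.2 ∨ R e.2 e'.1 ∨ R e.2 e'.2) then p e * p e' else 0) ≤
    ∑ u, ∑ v, (if R u v then 1 else 0) *
      ((∑ e ∈ E, p e * ((if e.1 = u then 1 else 0) + (if e.2 = u then 1 else 0))) *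
       (∑ e ∈ E, p e * ((if e.1 = v then 1 else 0) + (if e.2 = v then 1 else 0)))) := by
  have key : ∀ e e' : V × V, (∑ u, ∑ v, (if R u v then (1 : ℝ) else 0) *
      ((p e * ((if e.1 = u then 1 else 0) + (if e.2 = u then 1 else 0))) *
       (p e' * ((if e'.1 = v then 1 else 0) + (if e'.2 = v then 1 else 0))))) =
      p e * p e' * ((if R e.1 e'.1 then 1 else 0) + (if R e.1 e'.2 then 1 else 0) +
        (if R e.2 e'.1 then 1 else 0) + (if R e.2 e'.2 then 1 else 0)) := by
    intro e e'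
    simp only [mul_add, add_mul, Finset.sum_add_distrib, mul_ite, mul_one, mul_zero, ite_mul,
      zero_mul, Finset.sum_ite_eq, Finset.mem_univ, if_true, one_mul]
    split_ifs <;> ring
  have e1 : (∑ u, ∑ v, (if R u v then (1 : ℝ) else 0) *
      ((∑ e ∈ E, p e * ((if e.1 = u then 1 else 0) + (if e.2 = u then 1 else 0))) *
       (∑ e ∈ E, p e * ((if e.1 = v then 1 else 0) + (if e.2 = v then 1 else 0))))) =
      ∑ e ∈ E, ∑ e' ∈ E, ∑ u, ∑ v, (if R u v then (1 : ℝ) else 0) *
      ((p e * ((if e.1 = u then 1 else 0) + (if e.2 = u then 1 else 0))) *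
       (p e' * ((if e'.1 = v then 1 else 0) + (if e'.2 = v then 1 else 0)))) :=
    bil _ E E _ _
  rw [e1]
  refine Finset.sum_le_sum fun e _ => Finset.sum_le_sum fun e' _ => ?_
  rw [key]
  have := mul_nonneg (hp e) (hp e')
  split_ifs <;> first | nlinarith | tauto

lemma pair_count [Fintype V] [DecidableEq V] [DecidableRel G.Adj] (L L' : Finset V) :
    (∑ u, ∑ v, (if (u = v ∨ G.Adj u v) then (1 : ℝ) else 0) *
      ((if u ∈ L then 1 else 0) * (if v ∈ L' then 1 else 0))) ≤
    (L.card + ∑ u ∈ L, (L'.filter fun v => G.Adj u v).card : ℕ) := by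
  have e1 : ∀ u, (∑ v, (if (u = v ∨ G.Adj u v) then (1 : ℝ) else 0) *
      ((if u ∈ L then 1 else 0) * (if v ∈ L' then 1 else 0))) ≤
      if u ∈ L then (1 + ((L'.filter fun v => G.Adj u v).card : ℝ)) else 0 := by
    intro u
    by_cases hu : u ∈ L
    · simp only [hu, if_true, one_mul]
      calc ∑ v, (if (u = v ∨ G.Adj u v) then (1 : ℝ) else 0) * (if v ∈ L' then 1 else 0)
          ≤ ∑ v, ((if u = v then (1 : ℝ) else 0) +
            (if v ∈ L'.filter fun v => G.Adj u v then 1 else 0)) := by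
            refine Finset.sum_le_sum fun v _ => ?_
            simp only [Finset.mem_filter]
            split_ifs <;> first | (norm_num; done) | tauto
        _ = 1 + ((L'.filter fun v => G.Adj u v).card : ℝ) := by
            rw [Finset.sum_add_distrib, Finset.sum_ite_mem, Finset.univ_inter]
            simp
    · simp [hu]
  refine (Finset.sum_le_sum fun u _ => e1 u).trans (le_of_eq ?_)
  rw [Finset.sum_ite_mem, Finset.univ_inter, Finset.sum_add_distrib]
  simp

lemma final_arith (s : ℕ) (P Lam Emax k : ℝ) (hLam0 : 0 ≤ Lam) (hpos : 0 < P + Lam)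
    (hsum : k / 2 * Lam ≤ P) (h8 : P ^ 2 ≤ 4 * (s + 1) * (Lam ^ 2 * Emax))
    (h9 : 16 * (s + 1) * Emax < k ^ 2) (hk0 : 0 < k) : False := by
  rcases hLam0.eq_or_lt with h0 | h0
  · rw [← h0] at h8 hpos
    nlinarith
  · have h10 : (k / 2 * Lam) ^ 2 ≤ P ^ 2 := pow_le_pow_left₀ (by positivity) hsum 2
    have h11 : 0 < Lam ^ 2 := by positivity
    nlinarith

/-- The key lemma: a cut with no large strong induced matching has a vertex cover of small mu. -/
lemma cut_cover [Fintype V] {s t : ℕ} (hobs : ¬ Obs G t) (A : Set V)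
    (hsim : ∀ M : Finset (V × V), IM G M → (∀ e ∈ M, e.1 ∈ A ∧ e.2 ∉ A) → M.card ≤ s) :
    ∃ X : Set V, (∀ u v, G.Adj u v → u ∈ A → v ∉ A → u ∈ X ∨ v ∈ X) ∧ MuLe G X (2 * pk s t) := by
  classical
  have h80 : (0 : ℝ) ≤ 4 * ((s : ℝ) + 1) := by positivity
  obtain ⟨k, hk⟩ : ∃ k, k = pk s t := ⟨_, rfl⟩
  rw [← hk]
  let E : Finset (V × V) := Finset.univ.filter fun e => G.Adj e.1 e.2 ∧ e.1 ∈ A ∧ e.2 ∉ A
  let F : Finset (Finset V) := Finset.univ.filter fun L =>
    L.card = k ∧ ∃ M : Finset (V × V), IM G M ∧ L ⊆ M.image Prod.fst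
  rcases cover_alternative E F (k / 2) with ⟨x, hx0, hxE, hxF⟩ | ⟨p, l, hp, hl, hpos, hdeg, hsum⟩
  · refine ⟨{v | 1 / 2 ≤ x v}, fun u v huv hu hv => ?_, ?_⟩
    · have := hxE (u, v) (Finset.mem_filter.2 ⟨Finset.mem_univ _, huv, hu, hv⟩)
      by_contra hno
      simp only [Set.mem_ofPred_eq, not_or, not_le] at hno
      dsimp only at this
      linarith [hno.1, hno.2]
    · have main : ∀ M : Finset (V × V), IM G M → (∀ e ∈ M, 1 / 2 ≤ x e.1) → M.card ≤ k := by
        intro M hM hX
        by_contra hlt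
        push Not at hlt
        have hc : k ≤ (M.image Prod.fst).card := by
          rw [Finset.card_image_of_injOn hM.fst_inj]; exact hlt.le
        obtain ⟨L, hL, hLk⟩ := Finset.exists_subset_card_eq hc
        have h1 := hxF L (Finset.mem_filter.2 ⟨Finset.mem_univ _, hLk, M, hM, hL⟩)
        have h2 : ∑ v ∈ L, (1 / 2 : ℝ) ≤ ∑ v ∈ L, x v := by
          refine Finset.sum_le_sum fun v hv => ?_
          obtain ⟨e, he, rfl⟩ := Finset.mem_image.1 (hL hv)
          exact hX e he
        rw [Finset.sum_const, hLk, nsmul_eq_mul] at h2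
        linarith
      intro M hM ht
      have h1 := main (M.filter fun e => 1 / 2 ≤ x e.1) (hM.subset (Finset.filter_subset _ _))
        fun e he => (Finset.mem_filter.1 he).2
      have h2 := main ((M.filter fun e => ¬ 1 / 2 ≤ x e.1).image Prod.swap)
        (hM.subset (Finset.filter_subset _ _)).swap (by
          intro e he
          obtain ⟨a, ha, rfl⟩ := Finset.mem_image.1 he
          have h3 := Finset.mem_filter.1 ha
          exact (ht a h3.1).resolve_left h3.2)
      rw [Finset.card_image_of_injective _ Prod.swap_injective] at h2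
      have := Finset.card_filter_add_card_filter_not (s := M) (fun e => 1 / 2 ≤ x e.1)
      omega
  · exfalso
    let R : V → V → Prop := fun u v => u = v ∨ G.Adj u v
    have Rs : ∀ u v, R u v → R v u := fun u v h => h.imp Eq.symm G.adj_symm
    have hg := greedy E p hp
      (fun e e' => R e.1 e'.1 ∨ R e.1 e'.2 ∨ R e.2 e'.1 ∨ R e.2 e'.2)
      (fun e => Or.inl (Or.inl rfl)) (fun e e' h => by
        rcases h with h | h | h | h
        · exact Or.inl (Rs _ _ h)
        · exact Or.inr (Or.inr (Or.inl (Rs _ _ h)))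
        · exact Or.inr (Or.inl (Rs _ _ h))
        · exact Or.inr (Or.inr (Or.inr (Rs _ _ h)))) s (by
        intro M hM hind
        refine hsim M ⟨fun e he => (Finset.mem_filter.1 (hM he)).2.1, fun e he e' he' hne => ?_⟩
          fun e he => (Finset.mem_filter.1 (hM he)).2.2
        have := hind e he e' he' hne
        simp only [R, not_or] at this
        exact ⟨this.1.2, this.2.1.2, this.2.2.1.2, this.2.2.2.2⟩)
    have hq := quad_bound R E p hp
    have hLam0 : 0 ≤ ∑ L ∈ F, l L := Finset.sum_nonneg fun L _ => hl L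
    have hdeg0 : ∀ v, 0 ≤ ∑ e ∈ E, p e *
        ((if e.1 = v then 1 else 0) + (if e.2 = v then 1 else 0)) := fun v =>
      Finset.sum_nonneg fun e _ => mul_nonneg (hp e) (by split_ifs <;> norm_num)
    obtain ⟨Emax, hE⟩ : ∃ Emax : ℕ,
      Emax = k + pb s t * ((2 * t + 2) * k + pa s t * ((2 * t + 2) * 2 ^ pa s t)) := ⟨_, rfl⟩
    have h1 : (∑ u, ∑ v, (if R u v then (1 : ℝ) else 0) *
      ((∑ e ∈ E, p e * ((if e.1 = u then 1 else 0) + (if e.2 = u then 1 else 0))) *
       (∑ e ∈ E, p e * ((if e.1 = v then 1 else 0) + (if e.2 = v then 1 else 0))))) ≤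
       ∑ u, ∑ v, (if R u v then (1 : ℝ) else 0) *
      ((∑ L ∈ F, l L * (if u ∈ L then 1 else 0)) * (∑ L ∈ F, l L * (if v ∈ L then 1 else 0))) := by
      refine Finset.sum_le_sum fun u _ => Finset.sum_le_sum fun v _ => ?_
      refine mul_le_mul_of_nonneg_left ?_ (by split_ifs <;> norm_num)
      exact mul_le_mul (hdeg u) (hdeg v) (hdeg0 v) ((hdeg0 u).trans (hdeg u))
    rw [bil _ F F] at h1
    have h2 : ∑ L ∈ F, ∑ L' ∈ F, ∑ u, ∑ v, (if R u v then (1 : ℝ) else 0) *
        ((l L * (if u ∈ L then 1 else 0)) * (l L' * (if v ∈ L' then 1 else 0))) ≤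
        ∑ L ∈ F, ∑ L' ∈ F, l L * l L' * Emax := by
      refine Finset.sum_le_sum fun L hL => Finset.sum_le_sum fun L' hL' => ?_
      obtain ⟨hLk, M, hM, hLM⟩ := (Finset.mem_filter.1 hL).2
      obtain ⟨hLk', M', hM', hLM'⟩ := (Finset.mem_filter.1 hL').2
      have h3 := pair_count (G := G) L L'
      have h4 := kst G.Adj (2 * t + 2) (pa s t) L' (pb s t) L (hLk.trans hk).le (by
        intro B hB C hC hBc hCc hcomp
        exact hobs (obs_of_complete hM hM' B C (hB.trans hLM) (hC.trans hLM') hBc hCc hcomp))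
      rw [hLk'] at h4
      have h5 : L.card + ∑ u ∈ L, (L'.filter fun v => G.Adj u v).card ≤ Emax := by
        rw [hLk, hE]; omega
      have h6 : ((L.card + ∑ u ∈ L, (L'.filter fun v => G.Adj u v).card : ℕ) : ℝ) ≤ Emax := by
        exact_mod_cast h5
      calc ∑ u, ∑ v, (if R u v then (1 : ℝ) else 0) *
            ((l L * (if u ∈ L then 1 else 0)) * (l L' * (if v ∈ L' then 1 else 0)))
          = l L * l L' * ∑ u, ∑ v, (if (u = v ∨ G.Adj u v) then (1 : ℝ) else 0) *
            ((if u ∈ L then 1 else 0) * (if v ∈ L' then 1 else 0)) := by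
            rw [Finset.mul_sum]
            refine Finset.sum_congr rfl fun u _ => ?_
            rw [Finset.mul_sum]
            refine Finset.sum_congr rfl fun v _ => ?_
            ring
        _ ≤ l L * l L' * Emax :=
            mul_le_mul_of_nonneg_left (h3.trans h6) (mul_nonneg (hl L) (hl L'))
    have h7 : ∑ L ∈ F, ∑ L' ∈ F, l L * l L' * Emax = (∑ L ∈ F, l L) ^ 2 * Emax := by
      rw [sq, Finset.sum_mul_sum, Finset.sum_mul]
      refine Finset.sum_congr rfl fun L _ => ?_
      rw [Finset.sum_mul]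
    have h81 := hq.trans (h1.trans (h2.trans h7.le))
    have h82 := mul_le_mul_of_nonneg_left h81 h80
    have h9 : (16 * (s + 1) * Emax : ℝ) < (k : ℝ) ^ 2 := by
      have := numeric s t
      rw [← hk, ← hE] at this
      exact_mod_cast this
    have hk0 : (0 : ℝ) < k := by rw [hk]; exact_mod_cast pk_pos s t
    exact final_arith s _ _ Emax k hLam0 hpos hsum (hg.trans h82) h9 hk0

end Pool.Agent.Lib.MP_7b563b_co
end

-- part Pool.Agent.Lib.MP_7b563b_co.Tree
section

set_option autoImplicit false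

namespace Pool.Agent.Lib.MP_7b563b_co

open Finset

section balanced

variable {W : Type} (T : SimpleGraph W)

/-- the side of u after deleting the edge uw -/
def side (u w : W) : Set W := {x | (T.deleteEdges {s(u, w)}).Reachable u x}

variable {T}

lemma self_mem_side (u w : W) : u ∈ side T u w := SimpleGraph.Reachable.refl u

lemma side_step {u w x y : W} (hx : x ∈ side T u w) (hxy : T.Adj x y) (hne : s(x, y) ≠ s(u, w)) :
    y ∈ side T u w := by
  refine SimpleGraph.Reachable.trans hx (SimpleGraph.Adj.reachable ?_)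
  rw [SimpleGraph.deleteEdges_adj]
  exact ⟨hxy, by simpa using hne⟩

lemma side_induction {u w : W} (P : W → Prop) (h0 : P u)
    (hs : ∀ x y, x ∈ side T u w → P x → T.Adj x y → s(x, y) ≠ s(u, w) → P y) :
    ∀ x ∈ side T u w, P x := by
  intro x hx
  have hx' := (SimpleGraph.reachable_iff_reflTransGen _ _).1 hx
  induction hx' with
  | refl => exact h0
  | tail hab hbc ih =>
    have hb := (SimpleGraph.reachable_iff_reflTransGen _ _).2 hab
    rw [SimpleGraph.deleteEdges_adj] at hbc
    exact hs _ _ hb (ih hb) hbc.1 (by simpa using hbc.2)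

lemma side_cover (hT : T.Connected) (u w x : W) : x ∈ side T u w ∨ x ∈ side T w u := by
  have hx' := (SimpleGraph.reachable_iff_reflTransGen _ _).1 (hT.preconnected u x)
  induction hx' with
  | refl => exact Or.inl (self_mem_side u w)
  | @tail b c hab hbc ih =>
    by_cases he : s(b, c) = s(u, w)
    · rcases Sym2.eq_iff.1 he with ⟨_, rfl⟩ | ⟨_, rfl⟩
      · exact Or.inr (self_mem_side _ _)
      · exact Or.inl (self_mem_side _ _)
    · rcases ih with h | h
      · exact Or.inl (side_step h hbc he)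
      · exact Or.inr (side_step h hbc (by rwa [Sym2.eq_swap (a := w)]))

lemma side_decomp {u w x : W} (hx : x ∈ side T u w) :
    x = u ∨ ∃ w', w' ≠ w ∧ T.Adj u w' ∧ x ∈ side T w' u := by
  refine side_induction (fun x => x = u ∨ ∃ w', w' ≠ w ∧ T.Adj u w' ∧ x ∈ side T w' u)
    (Or.inl rfl) ?_ x hx
  intro x y _ hP hxy hne
  by_cases hy : y = u
  · exact Or.inl hy
  by_cases hxu : x = u
  · subst hxu
    exact Or.inr ⟨y, fun h => hne (by rw [h]), hxy, self_mem_side _ _⟩
  rcases hP with h | ⟨w', h1, h2, h3⟩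
  · exact absurd h hxu
  · refine Or.inr ⟨w', h1, h2, side_step h3 hxy fun he => ?_⟩
    rcases Sym2.eq_iff.1 he with ⟨_, h⟩ | ⟨h, _⟩
    · exact hy h
    · exact hxu h

lemma side_ssubset (hT : T.IsAcyclic) {u w w' : W} (h1 : w' ≠ w) (h2 : T.Adj u w') :
    side T w' u ⊂ side T u w := by
  have hu : u ∉ side T w' u :=
    SimpleGraph.isAcyclic_iff_forall_adj_isBridge.1 hT h2.symm
  refine ⟨?_, fun h => hu (h (self_mem_side _ _))⟩
  intro x hx
  refine side_induction (fun x => x ∈ side T u w) ?_ ?_ x hx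
  · refine side_step (self_mem_side _ _) h2 fun he => ?_
    rcases Sym2.eq_iff.1 he with ⟨_, h⟩ | ⟨h, h'⟩
    · exact h1 h
    · exact h2.ne h'.symm
  · intro x y hx' hP hxy hne
    refine side_step hP hxy fun he => ?_
    rcases Sym2.eq_iff.1 he with ⟨h, _⟩ | ⟨_, h⟩
    · exact hu (h ▸ hx')
    · have := side_step hx' hxy hne
      rw [h] at this
      exact hu this

open Classical in
lemma balanced_edge [Fintype W] {V : Type} (hT : T.IsTree)
    (hdeg : ∀ w, (T.neighborSet w).ncard ≤ 3) (L : V → W) (hL : Function.Injective L)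
    (Z : Finset V) (m : ℕ) (hm : 1 ≤ m) (hZ : 3 * m ≤ Z.card) :
    ∃ u w, T.Adj u w ∧ m ≤ (Z.filter fun z => L z ∈ side T u w).card ∧
      m ≤ (Z.filter fun z => ¬ L z ∈ side T u w).card := by
  let c : W → W → ℕ := fun u w => (Z.filter fun z => L z ∈ side T u w).card
  have hex : ∃ u w, T.Adj u w ∧ m ≤ c u w := by
    obtain ⟨a, ha, b, hb, hab⟩ := Finset.one_lt_card.1 (show 1 < Z.card by omega)
    have hne : L a ≠ L b := fun h => hab (hL h)
    obtain ⟨u, w, huw⟩ : ∃ u w, T.Adj u w := by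
      have hx' := (SimpleGraph.reachable_iff_reflTransGen _ _).1
        (hT.connected.preconnected (L a) (L b))
      rcases Relation.ReflTransGen.cases_head hx' with h | ⟨c, h, _⟩
      · exact absurd h hne
      · exact ⟨_, _, h⟩
    have hsub : Z ⊆ (Z.filter fun z => L z ∈ side T u w) ∪ (Z.filter fun z => L z ∈ side T w u) := by
      intro z hz
      rcases side_cover hT.connected u w (L z) with h | h
      · exact Finset.mem_union_left _ (Finset.mem_filter.2 ⟨hz, h⟩)
      · exact Finset.mem_union_right _ (Finset.mem_filter.2 ⟨hz, h⟩)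
    have h1 := (Finset.card_le_card hsub).trans (Finset.card_union_le _ _)
    by_cases h : m ≤ c u w
    · exact ⟨u, w, huw, h⟩
    · refine ⟨w, u, huw.symm, ?_⟩
      simp only [c] at h ⊢
      omega
  let S : Finset (W × W) := Finset.univ.filter fun e => T.Adj e.1 e.2 ∧ m ≤ c e.1 e.2
  obtain ⟨u0, w0, h0⟩ := hex
  obtain ⟨⟨u, w⟩, he, hmin⟩ := Finset.exists_min_image S (fun e => (side T e.1 e.2).ncard)
    ⟨(u0, w0), Finset.mem_filter.2 ⟨Finset.mem_univ _, h0⟩⟩
  have he' := (Finset.mem_filter.1 he).2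
  dsimp only at he' hmin
  refine ⟨u, w, he'.1, he'.2, ?_⟩
  let N : Finset W := (T.neighborSet u).toFinset.erase w
  have hN : N.card ≤ 2 := by
    have h1 := hdeg u
    rw [Set.ncard_eq_toFinset_card'] at h1
    have h2 : N.card + 1 = (T.neighborSet u).toFinset.card :=
      Finset.card_erase_add_one (by simpa using he'.1)
    omega
  have hsmall : ∀ w' ∈ N, c w' u ≤ m - 1 := by
    intro w' hw'
    have h1 : w' ≠ w := (Finset.mem_erase.1 hw').1
    have h2 : T.Adj u w' := by simpa using (Finset.mem_erase.1 hw').2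
    by_contra hlt
    have h3 := hmin (w', u) (Finset.mem_filter.2 ⟨Finset.mem_univ _, h2.symm, by
      dsimp only; omega⟩)
    have h4 := Set.ncard_lt_ncard (side_ssubset hT.isAcyclic h1 h2)
    dsimp only at h3
    omega
  have hsub : (Z.filter fun z => L z ∈ side T u w) ⊆
      (Z.filter fun z => L z = u) ∪ N.biUnion fun w' => Z.filter fun z => L z ∈ side T w' u := by
    intro z hz
    obtain ⟨hz1, hz2⟩ := Finset.mem_filter.1 hz
    rcases side_decomp hz2 with h | ⟨w', h1, h2, h3⟩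
    · exact Finset.mem_union_left _ (Finset.mem_filter.2 ⟨hz1, h⟩)
    · refine Finset.mem_union_right _ (Finset.mem_biUnion.2 ⟨w', ?_, Finset.mem_filter.2 ⟨hz1, h3⟩⟩)
      exact Finset.mem_erase.2 ⟨h1, by simpa using h2⟩
  have h1 : (Z.filter fun z => L z = u).card ≤ 1 := by
    rw [Finset.card_le_one]
    intro a ha b hb
    exact hL ((Finset.mem_filter.1 ha).2.trans (Finset.mem_filter.1 hb).2.symm)
  have h2 : (N.biUnion fun w' => Z.filter fun z => L z ∈ side T w' u).card ≤ 2 * (m - 1) := by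
    refine Finset.card_biUnion_le.trans ?_
    refine (Finset.sum_le_card_nsmul _ _ _ hsmall).trans ?_
    rw [smul_eq_mul]
    exact Nat.mul_le_mul_right _ hN
  have h3 := (Finset.card_le_card hsub).trans (Finset.card_union_le _ _)
  have h4 := Finset.card_filter_add_card_filter_not (s := Z) (fun z => L z ∈ side T u w)
  omega

end balanced

variable {V : Type} (G : SimpleGraph V)

/-- rooted tree decompositions of the subgraph induced on U, with root bag containing W -/
def TD (U W : Set V) (K : ℕ) : Prop :=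
  ∃ (ι : Type) (_ : Fintype ι) (root : ι) (par : ι → ι) (dep : ι → ℕ) (bag : ι → Set V),
    (∀ i, i ≠ root → dep (par i) < dep i) ∧ W ⊆ bag root ∧ (∀ i, bag i ⊆ U) ∧
    (∀ v ∈ U, ∃ top, v ∈ bag top ∧ ∀ i, v ∈ bag i → i ≠ top → i ≠ root ∧ v ∈ bag (par i)) ∧
    (∀ u ∈ U, ∀ v ∈ U, G.Adj u v → ∃ i, u ∈ bag i ∧ v ∈ bag i) ∧ ∀ i, MuLe G (bag i) K

variable {G}

lemma TD.mono {U W W' : Set V} {K : ℕ} (h : TD G U W K) (hW : W' ⊆ W) : TD G U W' K := by
  obtain ⟨ι, _, root, par, dep, bag, h1, h2, h3⟩ := h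
  exact ⟨ι, inferInstance, root, par, dep, bag, h1, hW.trans h2, h3⟩

lemma TD.single {U : Set V} {K : ℕ} (h : MuLe G U K) : TD G U U K := by
  refine ⟨Unit, inferInstance, (), id, fun _ => 0, fun _ => U, fun i hi => absurd rfl hi,
    subset_rfl, fun _ => subset_rfl, fun v hv => ⟨(), hv, fun i _ hi => absurd rfl hi⟩,
    fun u hu v hv _ => ⟨(), hu, hv⟩, fun _ => h⟩

lemma TD.glue {U U1 U2 W1 W2 R : Set V} {K : ℕ} (h1 : TD G U1 W1 K) (h2 : TD G U2 W2 K)
    (hR : MuLe G R K) (hRU : R ⊆ U) (hU1 : U1 ⊆ U) (hU2 : U2 ⊆ U) (hU : U ⊆ U1 ∪ U2)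
    (h12 : U1 ∩ U2 ⊆ R) (hW1 : U1 ∩ R ⊆ W1) (hW2 : U2 ∩ R ⊆ W2)
    (hE : ∀ u ∈ U, ∀ v ∈ U, G.Adj u v → (u ∈ U1 ∧ v ∈ U1) ∨ (u ∈ U2 ∧ v ∈ U2)) :
    TD G U R K := by
  classical
  obtain ⟨ι1, _, r1, par1, dep1, bag1, a1, a2, a3, a4, a5, a6⟩ := h1
  obtain ⟨ι2, _, r2, par2, dep2, bag2, b1, b2, b3, b4, b5, b6⟩ := h2
  let par : Option (ι1 ⊕ ι2) → Option (ι1 ⊕ ι2) := fun i => match i with
    | none => none
    | some (Sum.inl i) => if i = r1 then none else some (Sum.inl (par1 i))
    | some (Sum.inr i) => if i = r2 then none else some (Sum.inr (par2 i))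
  let dep : Option (ι1 ⊕ ι2) → ℕ := fun i => match i with
    | none => 0
    | some (Sum.inl i) => dep1 i + 1
    | some (Sum.inr i) => dep2 i + 1
  let bag : Option (ι1 ⊕ ι2) → Set V := fun i => match i with
    | none => R
    | some (Sum.inl i) => bag1 i
    | some (Sum.inr i) => bag2 i
  refine ⟨Option (ι1 ⊕ ι2), inferInstance, none, par, dep, bag, ?_, subset_rfl, ?_, ?_, ?_, ?_⟩
  · rintro (_ | i | i) hi
    · exact absurd rfl hi
    · by_cases h : i = r1
      · simp [par, dep, h]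
      · simpa [par, dep, h] using a1 i h
    · by_cases h : i = r2
      · simp [par, dep, h]
      · simpa [par, dep, h] using b1 i h
  · rintro (_ | i | i)
    · exact hRU
    · exact (a3 i).trans hU1
    · exact (b3 i).trans hU2
  · intro v hv
    by_cases hvR : v ∈ R
    · refine ⟨none, hvR, ?_⟩
      rintro (_ | i | i) hi hne
      · exact absurd rfl hne
      · refine ⟨hne, ?_⟩
        by_cases h : i = r1
        · simpa [par, bag, h] using hvR
        · obtain ⟨top, _, ht⟩ := a4 v (a3 i hi)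
          have hr : v ∈ bag1 r1 := a2 (hW1 ⟨a3 i hi, hvR⟩)
          have htop : r1 = top := by
            by_contra hh
            exact (ht r1 hr hh).1 rfl
          simpa [par, bag, h] using (ht i hi (htop ▸ h)).2
      · refine ⟨hne, ?_⟩
        by_cases h : i = r2
        · simpa [par, bag, h] using hvR
        · obtain ⟨top, _, ht⟩ := b4 v (b3 i hi)
          have hr : v ∈ bag2 r2 := b2 (hW2 ⟨b3 i hi, hvR⟩)
          have htop : r2 = top := by
            by_contra hh
            exact (ht r2 hr hh).1 rfl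
          simpa [par, bag, h] using (ht i hi (htop ▸ h)).2
    · rcases hU hv with hv1 | hv2
      · obtain ⟨top, ht0, ht⟩ := a4 v hv1
        refine ⟨some (Sum.inl top), ht0, ?_⟩
        rintro (_ | i | i) hi hne
        · exact absurd hi hvR
        · have := ht i hi (fun hh => hne (by rw [hh]))
          refine ⟨by simp, ?_⟩
          simpa [par, bag, this.1] using this.2
        · exact absurd (h12 ⟨hv1, b3 i hi⟩) hvR
      · obtain ⟨top, ht0, ht⟩ := b4 v hv2
        refine ⟨some (Sum.inr top), ht0, ?_⟩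
        rintro (_ | i | i) hi hne
        · exact absurd hi hvR
        · exact absurd (h12 ⟨a3 i hi, hv2⟩) hvR
        · have := ht i hi (fun hh => hne (by rw [hh]))
          refine ⟨by simp, ?_⟩
          simpa [par, bag, this.1] using this.2
  · intro u hu v hv huv
    rcases hE u hu v hv huv with h | h
    · obtain ⟨i, hi⟩ := a5 u h.1 v h.2 huv
      exact ⟨some (Sum.inl i), hi⟩
    · obtain ⟨i, hi⟩ := b5 u h.1 v h.2 huv
      exact ⟨some (Sum.inr i), hi⟩
  · rintro (_ | i | i)
    · exact hR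
    · exact a6 i
    · exact b6 i

open Classical in
lemma mu_side {W A X : Set V} {K d : ℕ} (hW : MuLe G W K) (hX : MuLe G X d)
    (hcov : ∀ u v, G.Adj u v → u ∈ A → v ∉ A → u ∈ X ∨ v ∈ X)
    (M : Finset (V × V)) (hM : IM G M) (hMt : ∀ e ∈ M, e.1 ∈ W ∨ e.2 ∈ W)
    (hc : 2 * d + 1 ≤ ((M.image Prod.fst).filter fun z => z ∉ A).card) :
    MuLe G ((W ∩ A) ∪ X) (K - 1) := by
  intro M' hM' ht
  let M0 := M'.filter fun e => ¬ (e.1 ∈ X ∨ e.2 ∈ X)
  let MB := (M.filter fun e => e.1 ∉ A).filter fun e => ¬ (e.1 ∈ X ∨ e.2 ∈ X)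
  have c1 := hX (M'.filter fun e => e.1 ∈ X ∨ e.2 ∈ X) (hM'.subset (Finset.filter_subset _ _))
    fun e he => (Finset.mem_filter.1 he).2
  have c2 := Finset.card_filter_add_card_filter_not (s := M') (fun e => e.1 ∈ X ∨ e.2 ∈ X)
  have c3 := hX ((M.filter fun e => e.1 ∉ A).filter fun e => e.1 ∈ X ∨ e.2 ∈ X)
    (hM.subset ((Finset.filter_subset _ _).trans (Finset.filter_subset _ _)))
    fun e he => (Finset.mem_filter.1 he).2
  have c4 := Finset.card_filter_add_card_filter_not (s := M.filter fun e => e.1 ∉ A)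
    (fun e => e.1 ∈ X ∨ e.2 ∈ X)
  have c5 : ((M.image Prod.fst).filter fun z => z ∉ A).card ≤ (M.filter fun e => e.1 ∉ A).card := by
    rw [Finset.filter_image]
    exact Finset.card_image_le
  have p0 : ∀ e ∈ M0, e.1 ∈ A ∧ e.2 ∈ A ∧ e.1 ∉ X ∧ e.2 ∉ X ∧ (e.1 ∈ W ∨ e.2 ∈ W) := by
    intro e he
    obtain ⟨h1, h2⟩ := Finset.mem_filter.1 he
    have h3 := ht e h1
    have h4 := hcov _ _ (hM'.1 e h1)
    have h5 := hcov _ _ (hM'.1 e h1).symm
    simp only [Set.mem_union, Set.mem_inter_iff] at h3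
    tauto
  have pB : ∀ e ∈ MB, e.1 ∉ A ∧ e.2 ∉ A ∧ e.1 ∉ X ∧ e.2 ∉ X := by
    intro e he
    obtain ⟨h1, h2⟩ := Finset.mem_filter.1 he
    obtain ⟨h0, h1⟩ := Finset.mem_filter.1 h1
    have h5 := hcov _ _ (hM.1 e h0).symm
    tauto
  have i0 : IM G M0 := hM'.subset (Finset.filter_subset _ _)
  have iB : IM G MB := hM.subset ((Finset.filter_subset _ _).trans (Finset.filter_subset _ _))
  have hfar : ∀ e ∈ M0, ∀ e' ∈ MB, Far G e e' := by
    intro e he e' he'
    have h1 := p0 e he
    have h2 := pB e' he'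
    refine ⟨fun h => ?_, fun h => ?_, fun h => ?_, fun h => ?_⟩ <;>
      (have := hcov _ _ h; tauto)
  have hdisj : Disjoint M0 MB := by
    rw [Finset.disjoint_left]
    intro e he he'
    exact (pB e he').1 (p0 e he).1
  have c6 := hW (M0 ∪ MB) ⟨fun e he => by
      rcases Finset.mem_union.1 he with h | h
      · exact i0.1 e h
      · exact iB.1 e h, fun e he e' he' hne => by
      rcases Finset.mem_union.1 he with h | h <;> rcases Finset.mem_union.1 he' with h' | h'
      · exact i0.2 e h e' h' hne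
      · exact hfar e h e' h'
      · exact (hfar e' h' e h).symm
      · exact iB.2 e h e' h' hne⟩ (fun e he => by
      rcases Finset.mem_union.1 he with h | h
      · exact (p0 e h).2.2.2.2
      · exact hMt e (Finset.mem_filter.1 (Finset.mem_filter.1 h).1).1)
  rw [Finset.card_union_of_disjoint hdisj] at c6
  simp only [M0, MB] at c6
  omega

open Classical in
lemma td_exists [Fintype V] (d : ℕ)
    (hcut : ∀ Z : Finset V, 3 * (2 * d + 1) ≤ Z.card → ∃ A X : Set V,
      2 * d + 1 ≤ (Z.filter fun z => z ∈ A).card ∧ 2 * d + 1 ≤ (Z.filter fun z => z ∉ A).card ∧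
      (∀ u v, G.Adj u v → u ∈ A → v ∉ A → u ∈ X ∨ v ∈ X) ∧ MuLe G X d) (n : ℕ) :
    ∀ U W : Set V, W ⊆ U → MuLe G W (3 * (2 * d + 1)) → (U \ W).ncard ≤ n →
      TD G U W (3 * (2 * d + 1) + d) := by
  induction n with
  | zero =>
    intro U W hWU hW hn
    have h0 : U \ W = ∅ := (Set.ncard_eq_zero (Set.toFinite _)).1 (by omega)
    have : U = W := Set.Subset.antisymm (Set.sdiff_eq_empty.1 h0) hWU
    subst this
    exact TD.single (hW.mono subset_rfl (by omega))
  | succ n ih =>
    have Q : ∀ U W : Set V, W ⊆ U → MuLe G W (3 * (2 * d + 1) - 1) → (U \ W).ncard ≤ n + 1 →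
        TD G U W (3 * (2 * d + 1) + d) := by
      intro U W hWU hW hn
      by_cases hUW : U ⊆ W
      · have : U = W := Set.Subset.antisymm hUW hWU
        subst this
        exact TD.single (hW.mono subset_rfl (by omega))
      · obtain ⟨u, hu, huW⟩ := Set.not_subset.1 hUW
        refine (ih U (W ∪ {u}) (Set.union_subset hWU (by simpa using hu))
          ((hW.union (muLe_singleton u)).mono subset_rfl (by omega)) ?_).mono Set.subset_union_left
        have h1 : U \ (W ∪ {u}) = (U \ W) \ {u} := by rw [Set.sdiff_sdiff]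
        have h2 := Set.ncard_sdiff_singleton_add_one (show u ∈ U \ W from ⟨hu, huW⟩)
        rw [h1]
        omega
    intro U W hWU hW hn
    by_cases hW' : MuLe G W (3 * (2 * d + 1) - 1)
    · exact Q U W hWU hW' hn
    unfold MuLe at hW'
    push Not at hW'
    obtain ⟨M, hM, hMt, hMc⟩ := hW'
    obtain ⟨A, X, hA1, hA2, hcov, hX⟩ := hcut (M.image Prod.fst) (by
      rw [Finset.card_image_of_injOn hM.fst_inj]; omega)
    have hcov' : ∀ u v, G.Adj u v → u ∈ Aᶜ → v ∉ Aᶜ → u ∈ X ∨ v ∈ X := by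
      intro u v huv hu hv
      exact (hcov v u huv.symm (not_not.1 hv) hu).symm
    have m1 := mu_side hW hX hcov M hM hMt hA2
    have m2 := mu_side hW hX hcov' M hM hMt (by simpa using hA1)
    have t1 := Q (U ∩ (A ∪ X)) (((W ∩ A) ∪ X) ∩ U) (by
        rintro v ⟨h1 | h1, h2⟩
        · exact ⟨h2, Or.inl h1.2⟩
        · exact ⟨h2, Or.inr h1⟩) (m1.mono Set.inter_subset_left le_rfl)
      (le_trans (Set.ncard_le_ncard (by
        rintro v ⟨⟨h1, h2⟩, h3⟩
        refine ⟨h1, fun h4 => h3 ⟨?_, h1⟩⟩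
        rcases h2 with h2 | h2
        · exact Or.inl ⟨h4, h2⟩
        · exact Or.inr h2)) hn)
    have t2 := Q (U ∩ (Aᶜ ∪ X)) (((W ∩ Aᶜ) ∪ X) ∩ U) (by
        rintro v ⟨h1 | h1, h2⟩
        · exact ⟨h2, Or.inl h1.2⟩
        · exact ⟨h2, Or.inr h1⟩) (m2.mono Set.inter_subset_left le_rfl)
      (le_trans (Set.ncard_le_ncard (by
        rintro v ⟨⟨h1, h2⟩, h3⟩
        refine ⟨h1, fun h4 => h3 ⟨?_, h1⟩⟩
        rcases h2 with h2 | h2
        · exact Or.inl ⟨h4, h2⟩
        · exact Or.inr h2)) hn)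
    refine (TD.glue (U := U) (R := W ∪ (X ∩ U)) t1 t2
      ((hW.union hX).mono (Set.union_subset_union_right _ Set.inter_subset_left) le_rfl)
      (Set.union_subset hWU Set.inter_subset_right) Set.inter_subset_left Set.inter_subset_left
      ?_ ?_ ?_ ?_ ?_).mono Set.subset_union_left
    · intro v hv
      by_cases h : v ∈ A
      · exact Or.inl ⟨hv, Or.inl h⟩
      · exact Or.inr ⟨hv, Or.inl h⟩
    · intro v
      simp only [Set.mem_inter_iff, Set.mem_union, Set.mem_compl_iff]
      tauto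
    · intro v
      simp only [Set.mem_inter_iff, Set.mem_union]
      tauto
    · intro v
      simp only [Set.mem_inter_iff, Set.mem_union, Set.mem_compl_iff]
      tauto
    · intro u hu v hv huv
      have h1 := hcov u v huv
      have h2 := hcov v u huv.symm
      simp only [Set.mem_inter_iff, Set.mem_union, Set.mem_compl_iff]
      tauto

lemma tree_of_parent {ι : Type} [Fintype ι] (root : ι) (par : ι → ι) (dep : ι → ℕ)
    (hdep : ∀ i, i ≠ root → dep (par i) < dep i) :
    ∃ T : SimpleGraph ι, T.IsTree ∧ ∀ (S : Set ι) (top : ι), top ∈ S →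
      (∀ i ∈ S, i ≠ top → i ≠ root ∧ par i ∈ S) → (T.induce S).Connected := by
  classical
  let T : SimpleGraph ι := SimpleGraph.fromRel fun i j => i ≠ root ∧ par i = j
  have hadj : ∀ i, i ≠ root → T.Adj i (par i) := by
    intro i hi
    refine (SimpleGraph.fromRel_adj _ _ _).2 ⟨fun h => ?_, Or.inl ⟨hi, rfl⟩⟩
    have := hdep i hi
    rw [← h] at this
    exact lt_irrefl _ this
  have hconn : ∀ (S : Set ι) (top : ι), top ∈ S →
      (∀ i ∈ S, i ≠ top → i ≠ root ∧ par i ∈ S) → (T.induce S).Connected := by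
    intro S top htop hS
    rw [SimpleGraph.connected_iff_exists_forall_reachable]
    refine ⟨⟨top, htop⟩, ?_⟩
    have : ∀ n, ∀ i (hi : i ∈ S), dep i = n → (T.induce S).Reachable ⟨top, htop⟩ ⟨i, hi⟩ := by
      intro n
      induction n using Nat.strong_induction_on with
      | _ n ih =>
        intro i hi hn
        by_cases h : i = top
        · subst h; rfl
        · obtain ⟨h1, h2⟩ := hS i hi h
          refine (ih (dep (par i)) (hn ▸ hdep i h1) (par i) h2 rfl).trans ?_
          exact SimpleGraph.Adj.reachable (hadj i h1).symm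
    rintro ⟨i, hi⟩
    exact this _ i hi rfl
  refine ⟨T, ?_, hconn⟩
  have hc : T.Connected := by
    have := hconn Set.univ root (Set.mem_univ _) fun i _ hi => ⟨hi, Set.mem_univ _⟩
    exact (SimpleGraph.induceUnivIso T).connected_iff.1 this
  rw [SimpleGraph.isTree_iff_connected_and_card]
  refine ⟨hc, le_antisymm ?_ hc.card_vert_le_card_edgeSet_add_one⟩
  have hsub : T.edgeSet ⊆ (fun i => s(i, par i)) '' ({root}ᶜ : Set ι) := by
    intro e he
    induction e using Sym2.ind with
    | _ a b =>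
      have he' : T.Adj a b := he
      rcases ((SimpleGraph.fromRel_adj _ _ _).1 he').2 with h | h
      · exact ⟨a, h.1, by dsimp only; rw [h.2]⟩
      · exact ⟨b, h.1, by dsimp only; rw [h.2]; exact Sym2.eq_swap⟩
  have h1 : T.edgeSet.ncard ≤ ({root}ᶜ : Set ι).ncard :=
    (Set.ncard_le_ncard hsub).trans (Set.ncard_image_le)
  have h2 := Set.ncard_add_ncard_compl ({root} : Set ι)
  rw [Set.ncard_singleton] at h2
  rw [Nat.card_coe_set_eq]
  omega

lemma TD.toFin {K : ℕ} (h : TD G Set.univ ∅ K) :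
    ∃ (n : ℕ) (T : SimpleGraph (Fin n)) (bag : Fin n → Set V),
      T.IsTree ∧ (∀ v, ∃ w, v ∈ bag w) ∧
      (∀ v v', G.Adj v v' → ∃ w, v ∈ bag w ∧ v' ∈ bag w) ∧
      (∀ v, (T.induce {w | v ∈ bag w}).Connected) ∧ ∀ w, MuLe G (bag w) K := by
  obtain ⟨ι, _, root, par, dep, bag, h1, _, _, h4, h5, h6⟩ := h
  let e := Fintype.equivFin ι
  obtain ⟨T, hT, hc⟩ := tree_of_parent (e root) (fun i => e (par (e.symm i)))
    (fun i => dep (e.symm i)) (by
      intro i hi
      simp only [Equiv.symm_apply_apply]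
      exact h1 _ fun hh => hi (by rw [← hh]; simp))
  refine ⟨_, T, fun i => bag (e.symm i), hT, fun v => ?_, fun v v' hv => ?_, fun v => ?_,
    fun w => h6 _⟩
  · obtain ⟨top, ht, _⟩ := h4 v (Set.mem_univ _)
    exact ⟨e top, by simpa using ht⟩
  · obtain ⟨i, hi⟩ := h5 v (Set.mem_univ _) v' (Set.mem_univ _) hv
    exact ⟨e i, by simpa using hi⟩
  · obtain ⟨top, ht, ht'⟩ := h4 v (Set.mem_univ _)
    refine hc _ (e top) (by simpa using ht) ?_
    intro i hi hne
    have := ht' (e.symm i) hi fun hh => hne (by rw [← hh]; simp)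
    refine ⟨fun hh => this.1 (by rw [hh]; simp), ?_⟩
    simpa using this.2

lemma im_to_fun {M : Finset (V × V)} (hM : IM G M) {m : ℕ} (hm : m ≤ M.card) :
    ∃ x y : Fin m → V, (∀ i, (x i, y i) ∈ M) ∧
      ∀ i j, i ≠ j → ¬ G.Adj (x i) (x j) ∧ ¬ G.Adj (x i) (y j) ∧ ¬ G.Adj (y i) (y j) := by
  obtain ⟨p, hp, hpm⟩ := exists_fun_of_card M m hm
  refine ⟨fun i => (p i).1, fun i => (p i).2, hpm, fun i j hij => ?_⟩
  have := hM.2 _ (hpm i) _ (hpm j) fun hh => hij (hp hh)
  exact ⟨this.1, this.2.1, this.2.2.2⟩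

lemma fun_to_im {m : ℕ} (x y : Fin m → V) (h1 : ∀ i, G.Adj (x i) (y i))
    (h2 : ∀ i j, i ≠ j → ¬ G.Adj (x i) (x j) ∧ ¬ G.Adj (x i) (y j) ∧ ¬ G.Adj (y i) (y j)) :
    ∃ M : Finset (V × V), IM G M ∧ M.card = m ∧ ∀ e ∈ M, ∃ i, e = (x i, y i) := by
  classical
  refine ⟨Finset.univ.image fun i => (x i, y i), ⟨?_, ?_⟩, ?_, ?_⟩
  · intro e he
    obtain ⟨i, _, rfl⟩ := Finset.mem_image.1 he
    exact h1 i
  · intro e he e' he' hne
    obtain ⟨i, _, rfl⟩ := Finset.mem_image.1 he
    obtain ⟨j, _, rfl⟩ := Finset.mem_image.1 he'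
    have hij : i ≠ j := fun hh => hne (by rw [hh])
    exact ⟨(h2 i j hij).1, (h2 i j hij).2.1, fun h => (h2 j i hij.symm).2.1 h.symm,
      (h2 i j hij).2.2⟩
  · rw [Finset.card_image_of_injective]
    · simp
    · intro i j hij
      by_contra hne
      have h3 : y i = y j := congrArg Prod.snd hij
      exact (h2 i j hne).2.1 (h3 ▸ h1 i)
  · intro e he
    obtain ⟨i, _, rfl⟩ := Finset.mem_image.1 he
    exact ⟨i, rfl⟩

end Pool.Agent.Lib.MP_7b563b_co
end
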